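import Pool.Agent.Helper79.HR.EP6

set_option autoImplicit false

/-! Eckardt points: summary. -/

namespace Pool.Agent.Helper79.HR

open Module Submodule Pool.Agent.Helper16 Pool.Agent.Helper16.Cub

variable {V : Type*} [AddCommGroup V] [Module ℂ V] {c : Cub V}

/-- A cubic fourfold with an Eckardt point on a plane has two disjoint planes, or exactly 27
planes, all through the point, and each of them is collinear with exactly 10 of them. -/
theorem eck_summary [FiniteDimensional ℂ V] (hV : finrank ℂ V = 6) {p : V} (hp0 : p ≠ 0)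
    (he : ∀ v, c.T p p v = 0 → c.T p v v = 0) {A : Submodule ℂ V} (hA : c.Pl A) (hp : p ∈ A) :
    (∃ B D : Submodule ℂ V, c.Pl B ∧ c.Pl D ∧ B ⊓ D = ⊥) ∨
      ((∀ W, c.Pl W → p ∈ W) ∧ {W : Submodule ℂ V | c.Pl W}.encard = 27 ∧
        ∀ X, c.Pl X → {B : Submodule ℂ V | c.Pl B ∧ B ≠ X ∧
          finrank ℂ (X ⊓ B : Submodule ℂ V) = 2}.encard = 10) := by
  by_cases hall : ∀ W, c.Pl W → p ∈ W
  · right
    refine ⟨hall, ?_, ?_⟩
    · have h1 := twentyseven hV hp0 he hA hp
      have h2 : {W : Submodule ℂ V | c.Pl W} = {B : Submodule ℂ V | c.Pl B ∧ p ∈ B} := by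
        ext B
        exact ⟨fun h => ⟨h, hall B h⟩, fun h => h.1⟩
      rw [h2]; exact h1
    · intro X hX
      have h1 := ten_neighbours hV hp0 he hX (hall X hX)
      have h2 : {B : Submodule ℂ V | c.Pl B ∧ B ≠ X ∧
          finrank ℂ (X ⊓ B : Submodule ℂ V) = 2} = nb c p X := by
        ext B
        exact ⟨fun h => ⟨h.1, hall B h.1, h.2.1, h.2.2⟩, fun h => ⟨h.1, h.2.2.1, h.2.2.2⟩⟩
      rw [h2]; exact h1
  · left
    push Not at hall
    obtain ⟨W, hW, hpW⟩ := hall
    exact disjoint_of_off hV hp0 he hA hp hW hpW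

/-- A cubic fourfold with an Eckardt point on a plane and with more than 27 planes, or with a
number of planes different from 27, has two disjoint planes. -/
theorem eck_count [FiniteDimensional ℂ V] (hV : finrank ℂ V = 6) {p : V} (hp0 : p ≠ 0)
    (he : ∀ v, c.T p p v = 0 → c.T p v v = 0) {A : Submodule ℂ V} (hA : c.Pl A) (hp : p ∈ A)
    (h27 : {W : Submodule ℂ V | c.Pl W}.encard ≠ 27) :
    ∃ B D : Submodule ℂ V, c.Pl B ∧ c.Pl D ∧ B ⊓ D = ⊥ := by
  rcases eck_summary hV hp0 he hA hp with h | h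
  · exact h
  · exact absurd h.2.1 h27

end Pool.Agent.Helper79.HR
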