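import Mathlib
import Pool.Agent.Helper16.CubicB

namespace Pool.Agent.Helper16.Cub
end Pool.Agent.Helper16.Cub

set_option autoImplicit false

/-! Eckardt points: the planes over the nodes. -/

namespace Pool.Agent.Helper79.HR

open MvPolynomial Module Pool.Agent.Helper16 Pool.Agent.Helper16.Cub



variable {c : Cub (I6 → ℂ)}

/-- two independent radical vectors give a plane collinear with the base plane -/
theorem plane_over (hP : c.Iso P0) {b : Fin 3 → ℂ} (hb : b ≠ 0) (hC : c.C2 b) :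
    ∃ A : Submodule ℂ (I6 → ℂ), c.Pl A ∧ A ≠ P0 ∧ finrank ℂ (A ⊓ P0 : Submodule ℂ _) = 2 ∧
      A ≤ P0 ⊔ ℂ ∙ iZ ℂ b := by
  obtain ⟨v, v', hli, hv, hv'⟩ := hC
  -- a third isotropic vector
  set R2 : Submodule ℂ (Fin 4 → ℂ) := Submodule.span ℂ (Set.range ![v, v']) with hR2
  have hR2d : finrank ℂ R2 = 2 := by
    rw [hR2, finrank_span_eq_card hli]; simp
  obtain ⟨Q, hQ⟩ := Submodule.exists_isCompl R2
  have hQd : finrank ℂ Q = 2 := by
    have := Submodule.finrank_add_eq_of_isCompl hQ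
    rw [hR2d] at this
    have h4 : finrank ℂ (Fin 4 → ℂ) = 4 := by simp
    omega
  obtain ⟨g, hgQ, hg0, hgg⟩ := Q1' (c.nf b) Q (by omega)
  have hgR : g ∉ R2 := by
    intro h
    have : g ∈ R2 ⊓ Q := ⟨h, hgQ⟩
    rw [hQ.inf_eq_bot] at this
    exact hg0 ((Submodule.mem_bot ℂ).mp this)
  set H : Submodule ℂ (Fin 4 → ℂ) := R2 ⊔ ℂ ∙ g with hH
  have hradR2 : ∀ x ∈ R2, c.Rad b x := by
    intro x hx
    rw [hR2] at hx
    induction hx using Submodule.span_induction with
    | mem x hx =>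
      obtain ⟨i, rfl⟩ := hx
      fin_cases i
      · exact hv
      · exact hv'
    | zero => intro y; simp
    | add x y _ _ h1 h2 => intro z; rw [map_add, LinearMap.add_apply, h1, h2, add_zero]
    | smul a x _ h1 => intro z; rw [map_smul, LinearMap.smul_apply, h1, smul_zero]
  have hHiso : ∀ x ∈ H, c.nf b x x = 0 := by
    intro x hx
    obtain ⟨a, ha, d, hd, rfl⟩ := Submodule.mem_sup.mp hx
    obtain ⟨r, rfl⟩ := Submodule.mem_span_singleton.mp hd
    rw [map_add (c.nf b), LinearMap.add_apply, hradR2 a ha, zero_add, map_add, c.nf_symm b _ a,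
      hradR2 a ha, zero_add]
    simp [hgg]
  have hHd : finrank ℂ H = 3 := by
    have h1 : finrank ℂ R2 < finrank ℂ H := by
      apply Submodule.finrank_lt_finrank_of_lt
      rw [lt_iff_le_and_ne]
      refine ⟨le_sup_left, fun he => hgR ?_⟩
      rw [he]; exact Submodule.mem_sup_right (Submodule.mem_span_singleton_self _)
    have h2 := Submodule.finrank_add_le_finrank_add_finrank R2 (ℂ ∙ g)
    have h3 := finrank_span_singleton (K := ℂ) hg0
    rw [h3] at h2
    change finrank ℂ H ≤ _ at h2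
    omega
  have hinj : Function.Injective (pt b) := by
    rw [← LinearMap.ker_eq_bot, Submodule.eq_bot_iff]
    intro x hx
    exact pt_inj hb (LinearMap.mem_ker.mp hx)
  have hAd : finrank ℂ (H.map (pt b)) = 3 := by
    rw [← hHd]
    exact (Submodule.equivMapOfInjective (pt b) hinj H).finrank_eq.symm
  have hAiso : c.Iso (H.map (pt b)) := by
    rintro _ ⟨x, hx, rfl⟩
    rw [T_pt hP, hHiso x hx, mul_zero]
  have hpP0 : ∀ x, pt b x ∈ P0 ↔ x 3 = 0 := by
    intro x
    rw [mem_P0, pt_apply, map_add, map_smul, pZ_iZ]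
    have : pZ ℂ (vY ℂ x) = 0 := by funext k; simp
    rw [this, zero_add]
    constructor
    · intro h
      exact (smul_eq_zero.mp h).resolve_right hb
    · intro h; rw [h, zero_smul]
  have hex : ∃ x ∈ H, x 3 ≠ 0 := by
    by_contra hcon
    push Not at hcon
    -- then `H` is the base plane
    have hle : H.map (pt b) ≤ P0 := by
      rintro _ ⟨x, hx, rfl⟩
      exact (hpP0 x).mpr (hcon x hx)
    have heq : H.map (pt b) = P0 :=
      Submodule.eq_of_le_of_finrank_eq hle (by rw [hAd, finrank_P0])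
    refine not_conic_zero hP b hb fun y hy => ?_
    rw [← heq] at hy
    obtain ⟨x, hx, rfl⟩ := hy
    have h1 := hHiso x hx
    rw [nf_complex, hcon x hx] at h1
    rw [pt_apply, hcon x hx, zero_smul, add_zero]
    simpa using h1
  refine ⟨H.map (pt b), ⟨hAd, hAiso⟩, ?_, ?_, ?_⟩
  · intro he
    obtain ⟨x, hx, hx3⟩ := hex
    have : pt b x ∈ P0 := by rw [← he]; exact ⟨x, hx, rfl⟩
    exact hx3 ((hpP0 x).mp this)
  · have h1 : (H.map (pt b) ⊓ P0 : Submodule ℂ _) =
        (H ⊓ LinearMap.ker (LinearMap.proj (3 : Fin 4) : (Fin 4 → ℂ) →ₗ[ℂ] ℂ)).map (pt b) := by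
      ext y
      constructor
      · rintro ⟨⟨x, hx, rfl⟩, hy⟩
        exact ⟨x, ⟨hx, LinearMap.mem_ker.mpr ((hpP0 x).mp hy)⟩, rfl⟩
      · rintro ⟨x, ⟨hx, hx3⟩, rfl⟩
        exact ⟨⟨x, hx, rfl⟩, (hpP0 x).mpr (LinearMap.mem_ker.mp hx3)⟩
    rw [h1, ← (Submodule.equivMapOfInjective (pt b) hinj _).finrank_eq]
    have h2 := finrank_inf_ker H (LinearMap.proj (3 : Fin 4) : (Fin 4 → ℂ) →ₗ[ℂ] ℂ) hex
    omega
  · rintro _ ⟨x, hx, rfl⟩
    rw [pt_apply]
    exact Submodule.add_mem _ (Submodule.mem_sup_left (vY_mem x)) (Submodule.mem_sup_right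
      (Submodule.smul_mem _ _ (Submodule.mem_span_singleton_self _)))



end Pool.Agent.Helper79.HR
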