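import Mathlib
import Pool.Agent.Helper16.CubicB
import Pool.Agent.Helper16.CubicTr2

namespace Pool.Agent.Helper16.Cub
end Pool.Agent.Helper16.Cub

set_option autoImplicit false

/-! Eckardt points: the discriminant contains a line with at least two nodes. -/

namespace Pool.Agent.Helper79.HR

open MvPolynomial Module Pool.Agent.Helper16 Pool.Agent.Helper16.Cub

variable {c : Cub (I6 → ℂ)}

/-- an Eckardt point on the base plane is a radical vector along its tangent line -/
theorem eck_rad (hP : c.Iso P0) {w : Fin 3 → ℂ}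
    (he : ∀ v, c.T (iY ℂ w) (iY ℂ w) v = 0 → c.T (iY ℂ w) v v = 0) {z : Fin 3 → ℂ}
    (hz : c.tl w z = 0) : c.Rad z (yv w) := by
  have hl : c.T (iY ℂ w) (iY ℂ w) (iZ ℂ z) = 0 := hz
  have key : ∀ (y : Fin 3 → ℂ) (s : ℂ), c.T (iY ℂ w) (iY ℂ y) (iY ℂ y) +
      2 * s * c.T (iY ℂ w) (iY ℂ y) (iZ ℂ z) + s ^ 2 * c.T (iY ℂ w) (iZ ℂ z) (iZ ℂ z) = 0 := by
    intro y s
    have h1 := he (iY ℂ y + s • iZ ℂ z) (by
      rw [map_add, map_smul, hl, hP.two (iY_mem _) (iY_mem _), smul_zero, add_zero])
    simp only [map_add, map_smul, LinearMap.add_apply, LinearMap.smul_apply, smul_eq_mul] at h1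
    rw [c.s23 (iY ℂ w) (iZ ℂ z) (iY ℂ y)] at h1
    linear_combination h1
  have k0 := fun y => hP.three (iY_mem w) (iY_mem y) (iY_mem y)
  have hyz : ∀ y, c.T (iY ℂ w) (iY ℂ y) (iZ ℂ z) = 0 := by
    intro y
    have h1 := key y 1
    have h2 := key y (-1)
    have h3 := k0 y
    linear_combination (1/4) * h1 - (1/4) * h2
  have hzz : c.T (iY ℂ w) (iZ ℂ z) (iZ ℂ z) = 0 := by
    have h1 := key 0 1
    rw [map_zero] at h1
    simp only [map_zero, LinearMap.zero_apply] at h1
    linear_combination h1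
  intro v'
  rw [nf_complex, vY_yv, yv_last, hzz]
  have h1 : vY ℂ v' = iY ℂ (pY ℂ (vY ℂ v')) := eq_iY_of_mem (vY_mem v')
  rw [h1, hyz]; ring

/-- the discriminant contains the tangent line of an Eckardt point -/
theorem eck_disc (hP : c.Iso P0) {w : Fin 3 → ℂ} (hw : w ≠ 0)
    (he : ∀ v, c.T (iY ℂ w) (iY ℂ w) v = 0 → c.T (iY ℂ w) v v = 0) :
    ∃ H : R3, H.IsHomogeneous 5 ∧ c.disc = linp (c.tl w) * H := by
  have hl := tl_ne_zero hP hw
  obtain ⟨H, hH⟩ := null_lite (linp_irreducible hl) (g := c.disc) fun z hz => by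
    rw [eval_linp] at hz
    have h1 := eck_rad hP he hz
    rw [eval_disc, ← Matrix.exists_mulVec_eq_zero_iff]
    refine ⟨yv w, ?_, (c.rad_iff z _).mp h1⟩
    intro h0
    apply hw
    funext i
    have := congrFun h0 i.castSucc
    simpa [yv] using this
  obtain ⟨a, b, ha, hb, hab⟩ := hom_factor (by rw [← hH]; exact disc_hom)
    (by rw [← hH]; exact disc_ne_zero hP)
  have ha1 : a = 1 := ha.inj_right (linp_hom _) (linp_ne_zero hl)
  have : b = 5 := by omega
  subst this
  exact ⟨H, hb, hH⟩

/-- the derivative along a line -/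
theorem deriv_line (b e : Fin 3 → ℂ) (H : R3) :
    ((aeval (fun k => Polynomial.C (b k) + Polynomial.C (e k) * Polynomial.X) H :
      Polynomial ℂ).derivative).eval 0 = eval b (dv e H) := by
  have hev : ∀ q : R3, (aeval (fun k => Polynomial.C (b k) + Polynomial.C (e k) *
      Polynomial.X) q : Polynomial ℂ).eval 0 = eval b q := by
    intro q
    have h1 : (Polynomial.evalRingHom 0).comp (aeval (fun k => Polynomial.C (b k) +
        Polynomial.C (e k) * Polynomial.X : Fin 3 → Polynomial ℂ) :
        MvPolynomial (Fin 3) ℂ →ₐ[ℂ] Polynomial ℂ).toRingHom = eval b := by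
      apply MvPolynomial.ringHom_ext
      · intro r; simp
      · intro k; simp
    exact RingHom.congr_fun h1 q
  induction H using MvPolynomial.induction_on with
  | C a => simp [dv_apply]
  | add p q hp hq => rw [map_add, Polynomial.derivative_add, Polynomial.eval_add, hp, hq,
      map_add, map_add]
  | mul_X p n hp =>
    rw [map_mul, Polynomial.derivative_mul, Polynomial.eval_add, Polynomial.eval_mul,
      Polynomial.eval_mul, hp, hev, dv_mul, map_add, map_mul, map_mul, aeval_X]
    have h1 := hev p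
    simp [dv_apply, Pi.single_apply]
    rw [h1]
    ring

/-- the tangent line of an Eckardt point carries two different nodes -/
theorem two_nodes (hP : c.Iso P0) {w : Fin 3 → ℂ} (hw : w ≠ 0)
    (he : ∀ v, c.T (iY ℂ w) (iY ℂ w) v = 0 → c.T (iY ℂ w) v v = 0) :
    ∃ b1 b2 : Fin 3 → ℂ, b1 ≠ 0 ∧ b2 ≠ 0 ∧ b2 ∉ (ℂ ∙ b1) ∧ c.tl w b1 = 0 ∧ c.tl w b2 = 0 ∧
      c.C2 b1 ∧ c.C2 b2 := by
  obtain ⟨H, hH5, hD⟩ := eck_disc hP hw he
  have hl := tl_ne_zero hP hw
  have hnode : ∀ b, b ≠ 0 → c.tl w b = 0 → eval b H = 0 → c.C2 b := by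
    intro b hb hlb hHb
    refine sing hP hb ?_ ?_
    · rw [hD, map_mul, hHb, mul_zero]
    · intro k
      rw [hD, Derivation.leibniz, smul_eq_mul, smul_eq_mul, map_add, map_mul, map_mul, hHb,
        eval_linp, hlb]
      ring
  have hH0 : eval 0 H = 0 := eval_zero_of_hom hH5 (by norm_num)
  obtain ⟨b1, hb1, hlb1, hHb1⟩ := exists_root_on_line (l := c.tl w) (q := H) hH0
  -- a second vector of the line
  obtain ⟨e, he0, hle⟩ : ∃ e : Fin 3 → ℂ, e ∉ (ℂ ∙ b1) ∧ c.tl w e = 0 := by
    by_contra hcon
    push Not at hcon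
    have hle : LinearMap.ker (c.tl w) ≤ ℂ ∙ b1 := by
      intro z hz
      by_contra hz1
      exact hcon z hz1 (LinearMap.mem_ker.mp hz)
    have h1 := Submodule.finrank_mono hle
    rw [finrank_span_singleton hb1] at h1
    have h2 := LinearMap.finrank_range_add_finrank_ker (c.tl w)
    have h3 : finrank ℂ (LinearMap.range (c.tl w)) ≤ 1 := by
      have := Submodule.finrank_le (LinearMap.range (c.tl w))
      simpa using this
    simp at h2; omega
  have hder : eval b1 (dv e H) ≠ 0 := by
    intro h0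
    exact transversal hP hD hb1 (by rw [eval_linp]; exact hlb1) hHb1 he0
      (by rw [eval_dv_linp]; exact hle) h0
  by_contra hcon
  push Not at hcon
  -- the one-variable polynomial has no root
  have hno : ∀ s : ℂ, eval (s • b1 + e) H ≠ 0 := by
    intro s h0
    have hne : s • b1 + e ≠ 0 := by
      intro h1
      apply he0
      have : e = (-s) • b1 := by rw [neg_smul]; exact eq_neg_of_add_eq_zero_right h1
      rw [this]
      exact Submodule.smul_mem _ _ (Submodule.mem_span_singleton_self _)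
    have hnm : s • b1 + e ∉ (ℂ ∙ b1) := by
      intro h1
      apply he0
      have := Submodule.sub_mem _ h1 (Submodule.smul_mem _ s
        (Submodule.mem_span_singleton_self b1))
      simpa using this
    have hlt : c.tl w (s • b1 + e) = 0 := by
      rw [map_add, map_smul, hlb1, hle, smul_zero, add_zero]
    exact hcon b1 (s • b1 + e) hb1 hne hnm hlb1 hlt (hnode _ hb1 hlb1 hHb1) (hnode _ hne hlt h0)
  -- hence the restriction is a constant times the fifth power
  let φ : Polynomial ℂ := aeval (fun k => Polynomial.C (b1 k) * Polynomial.X +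
    Polynomial.C (e k)) H
  have hφ : ∀ s, φ.eval s = eval (s • b1 + e) H := by
    intro s
    have h1 : (Polynomial.evalRingHom s).comp (aeval (fun k => Polynomial.C (b1 k) *
        Polynomial.X + Polynomial.C (e k) : Fin 3 → Polynomial ℂ) :
        MvPolynomial (Fin 3) ℂ →ₐ[ℂ] Polynomial ℂ).toRingHom = eval (s • b1 + e) := by
      apply MvPolynomial.ringHom_ext
      · intro r; simp
      · intro k; simp; ring
    have h2 := RingHom.congr_fun h1 H
    exact h2
  have hconst : ∃ a, φ = Polynomial.C a := by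
    have : φ.degree ≤ 0 := by
      by_contra hlt
      push Not at hlt
      obtain ⟨s, hs⟩ := IsAlgClosed.exists_root φ (ne_of_gt hlt)
      exact hno s (by rw [← hφ]; exact hs)
    exact ⟨_, Polynomial.eq_C_of_degree_le_zero this⟩
  obtain ⟨a, ha⟩ := hconst
  have hval : ∀ s : ℂ, eval (s • b1 + e : Fin 3 → ℂ) H = a := by
    intro s
    rw [← hφ, ha, Polynomial.eval_C]
  let ψ : Polynomial ℂ := aeval (fun k => Polynomial.C (b1 k) +
    Polynomial.C (e k) * Polynomial.X) H
  have hψ : ∀ s, ψ.eval s = eval (b1 + s • e) H := by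
    intro s
    have h1 : (Polynomial.evalRingHom s).comp (aeval (fun k => Polynomial.C (b1 k) +
        Polynomial.C (e k) * Polynomial.X : Fin 3 → Polynomial ℂ) :
        MvPolynomial (Fin 3) ℂ →ₐ[ℂ] Polynomial ℂ).toRingHom = eval (b1 + s • e) := by
      apply MvPolynomial.ringHom_ext
      · intro r; simp
      · intro k; simp; ring
    have h2 := RingHom.congr_fun h1 H
    exact h2
  have hψ5 : ψ = Polynomial.C a * Polynomial.X ^ 5 := by
    apply Polynomial.funext
    intro s
    rw [hψ, Polynomial.eval_mul, Polynomial.eval_C, Polynomial.eval_pow, Polynomial.eval_X]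
    by_cases hs : s = 0
    · subst hs
      rw [zero_smul, add_zero, hHb1]; ring
    · have h1 : b1 + s • e = s • (s⁻¹ • b1 + e) := by
        rw [smul_add, smul_smul, mul_inv_cancel₀ hs, one_smul]
      rw [h1, eval_smul_of_hom hH5, hval]; ring
  have hψd : ψ.derivative.eval 0 = eval b1 (dv e H) := deriv_line b1 e H
  apply hder
  rw [← hψd, hψ5]
  simp

end Pool.Agent.Helper79.HR
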