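import Mathlib
import Pool.Agent.Helper79.HR.EP2
import Pool.Agent.Helper16.CubicTransfer
import Pool.Agent.Helper79.HR.EP1

namespace Pool.Agent.Helper16.Cub
end Pool.Agent.Helper16.Cub

set_option autoImplicit false

/-! Eckardt points: planes through the point and planes off the point. -/

namespace Pool.Agent.Helper79.HR

open Module Submodule Pool.Agent.Helper16 Pool.Agent.Helper16.Cub

variable {V : Type*} [AddCommGroup V] [Module ℂ V] {c : Cub V}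

/-- a plane through the point lies in the tangent space -/
theorem pl_le_ker {p : V} {A : Submodule ℂ V} (hA : c.Pl A) (hp : p ∈ A) :
    A ≤ LinearMap.ker (c.T p p) := fun _ hx => LinearMap.mem_ker.mpr (hA.iso.two hp hx)

/-- a plane in the tangent space of an Eckardt point contains the point -/
theorem mem_of_le_ker [FiniteDimensional ℂ V] (hV : finrank ℂ V = 6) {p : V}
    (hpp : c.T p p p = 0) (he : ∀ v, c.T p p v = 0 → c.T p v v = 0) {A : Submodule ℂ V}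
    (hA : c.Pl A) (hle : A ≤ LinearMap.ker (c.T p p)) : p ∈ A := by
  have hiso : c.Iso (A ⊔ ℂ ∙ p) := by
    intro x hx
    obtain ⟨a, ha, y, hy, rfl⟩ := Submodule.mem_sup.mp hx
    obtain ⟨s, rfl⟩ := Submodule.mem_span_singleton.mp hy
    have h1 : c.T p p a = 0 := LinearMap.mem_ker.mp (hle ha)
    have h2 := he a h1
    rw [c.cube_add, hA.iso a ha]
    simp only [map_smul, LinearMap.smul_apply, smul_eq_mul]
    rw [c.s13 a a p, h2, c.s13 a p p, h1, hpp]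
    ring
  have h1 := hiso.finrank_le hV
  have h2 : A = A ⊔ ℂ ∙ p := by
    apply Submodule.eq_of_le_of_finrank_le le_sup_left
    rw [hA.rank]; exact h1
  rw [h2]
  exact Submodule.mem_sup_right (Submodule.mem_span_singleton_self _)

theorem sup_of_plane {c : Cub (I6 → ℂ)} {b : Fin 3 → ℂ} {B : Submodule ℂ (I6 → ℂ)} (hb : b ≠ 0)
    (hB : c.Pl B) (h2 : finrank ℂ (B ⊓ P0 : Submodule ℂ _) = 2) (hle : B ≤ P0 ⊔ ℂ ∙ iZ ℂ b) :
    P0 ⊔ B = P0 ⊔ ℂ ∙ iZ ℂ b := by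
  apply Submodule.eq_of_le_of_finrank_eq (sup_le le_sup_left hle)
  have h1 := Submodule.finrank_sup_add_finrank_inf_eq P0 B
  rw [inf_comm, h2, hB.rank, finrank_P0] at h1
  rw [finrank_U hb]; omega

theorem mem_line {b1 b2 : Fin 3 → ℂ} (h4 : iZ ℂ b2 ∈ P0 ⊔ ℂ ∙ iZ ℂ b1) : b2 ∈ (ℂ ∙ b1) := by
  obtain ⟨y, hy, z, hz, hyz⟩ := Submodule.mem_sup.mp h4
  obtain ⟨s, rfl⟩ := Submodule.mem_span_singleton.mp hz
  rw [Submodule.mem_span_singleton]
  refine ⟨s, ?_⟩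
  have h5 := congrArg (pZ ℂ) hyz
  rw [map_add, map_smul, pZ_iZ, pZ_iZ, mem_P0.mp hy, zero_add] at h5
  exact h5

theorem eck_mem {c : Cub (I6 → ℂ)} (hP : c.Iso P0) {w : Fin 3 → ℂ}
    (he : ∀ v, c.T (iY ℂ w) (iY ℂ w) v = 0 → c.T (iY ℂ w) v v = 0) {b : Fin 3 → ℂ}
    (hlb : c.tl w b = 0) {B : Submodule ℂ (I6 → ℂ)} (hB : c.Pl B) (hle : B ≤ P0 ⊔ ℂ ∙ iZ ℂ b) :
    iY ℂ w ∈ B := by
  apply mem_of_le_ker finrank_I6 (hP.two (iY_mem _) (iY_mem _)) he hB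
  refine hle.trans (sup_le ?_ ?_)
  · intro x hx
    exact LinearMap.mem_ker.mpr (hP.two (iY_mem _) hx)
  · rw [Submodule.span_singleton_le_iff_mem]
    exact LinearMap.mem_ker.mpr hlb

/-- neighbours of the base plane -/
theorem exists_neighbours0 {c : Cub (I6 → ℂ)} (hP : c.Iso P0) {w : Fin 3 → ℂ} (hw : w ≠ 0)
    (he : ∀ v, c.T (iY ℂ w) (iY ℂ w) v = 0 → c.T (iY ℂ w) v v = 0) :
    ∃ B C : Submodule ℂ (I6 → ℂ), c.Pl B ∧ c.Pl C ∧ iY ℂ w ∈ B ∧ iY ℂ w ∈ C ∧ B ≠ P0 ∧ C ≠ P0 ∧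
      finrank ℂ (P0 ⊓ B : Submodule ℂ _) = 2 ∧ finrank ℂ (P0 ⊓ C : Submodule ℂ _) = 2 ∧
      ¬ C ≤ P0 ⊔ B := by
  obtain ⟨b1, b2, hb1, hb2, hb12, hl1, hl2, hC1, hC2⟩ := two_nodes hP hw he
  obtain ⟨A1, hA1, hA1ne, hA1r, hA1le⟩ := plane_over hP hb1 hC1
  obtain ⟨A2, hA2, hA2ne, hA2r, hA2le⟩ := plane_over hP hb2 hC2
  refine ⟨A1, A2, hA1, hA2, eck_mem hP he hl1 hA1 hA1le, eck_mem hP he hl2 hA2 hA2le, hA1ne,
    hA2ne, by rw [inf_comm]; exact hA1r, by rw [inf_comm]; exact hA2r, fun h1 => ?_⟩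
  apply hb12
  apply mem_line
  rw [← sup_of_plane hb1 hA1 hA1r hA1le]
  have h3 : P0 ⊔ ℂ ∙ iZ ℂ b2 ≤ P0 ⊔ A1 := by
    rw [← sup_of_plane hb2 hA2 hA2r hA2le]
    exact sup_le le_sup_left h1
  exact h3 (Submodule.mem_sup_right (Submodule.mem_span_singleton_self _))

theorem map_P0 {A : Submodule ℂ V} {e : (I6 → ℂ) ≃ₗ[ℂ] V}
    (heA : A.comap (e : (I6 → ℂ) →ₗ[ℂ] V) = P0) : P0.map (e : (I6 → ℂ) →ₗ[ℂ] V) = A := by
  rw [← heA, Submodule.map_comap_eq_of_surjective e.surjective]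

theorem pl_map {e : (I6 → ℂ) ≃ₗ[ℂ] V} {B : Submodule ℂ (I6 → ℂ)} (hB : (c.comap e).Pl B) :
    c.Pl (B.map (e : (I6 → ℂ) →ₗ[ℂ] V)) := by
  rw [← Cub.pl_comap c e, Submodule.comap_map_eq_of_injective e.injective]; exact hB

theorem map_ne {A : Submodule ℂ V} {e : (I6 → ℂ) ≃ₗ[ℂ] V}
    (heA : A.comap (e : (I6 → ℂ) →ₗ[ℂ] V) = P0) {B : Submodule ℂ (I6 → ℂ)} (hB : B ≠ P0) :
    B.map (e : (I6 → ℂ) →ₗ[ℂ] V) ≠ A := by
  intro h
  rw [← map_P0 heA] at h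
  exact hB (Submodule.map_injective_of_injective e.injective h)

theorem finrank_map_inf {A : Submodule ℂ V} {e : (I6 → ℂ) ≃ₗ[ℂ] V}
    (heA : A.comap (e : (I6 → ℂ) →ₗ[ℂ] V) = P0) (B : Submodule ℂ (I6 → ℂ)) :
    finrank ℂ (A ⊓ B.map (e : (I6 → ℂ) →ₗ[ℂ] V) : Submodule ℂ V) =
      finrank ℂ (P0 ⊓ B : Submodule ℂ (I6 → ℂ)) := by
  rw [← map_P0 heA, ← Submodule.map_inf _ e.injective, LinearEquiv.finrank_map_eq e]

/-- coordinates of an Eckardt point on a plane -/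
theorem eck_coord {p : V} (hp0 : p ≠ 0) (he : ∀ v, c.T p p v = 0 → c.T p v v = 0)
    {A : Submodule ℂ V} (hA : c.Pl A) (hp : p ∈ A) {e : (I6 → ℂ) ≃ₗ[ℂ] V}
    (heA : A.comap (e : (I6 → ℂ) →ₗ[ℂ] V) = P0) :
    (c.comap e).Iso P0 ∧ ∃ w : Fin 3 → ℂ, w ≠ 0 ∧ e (iY ℂ w) = p ∧
      ∀ v, (c.comap e).T (iY ℂ w) (iY ℂ w) v = 0 → (c.comap e).T (iY ℂ w) v v = 0 := by
  have hpP : e.symm p ∈ P0 := by
    rw [← heA, Submodule.mem_comap]; simpa using hp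
  have hwp : iY ℂ (pY ℂ (e.symm p)) = e.symm p := (eq_iY_of_mem hpP).symm
  refine ⟨by rw [← heA, Cub.iso_comap]; exact hA.iso, pY ℂ (e.symm p), ?_, ?_, ?_⟩
  · intro h
    rw [h, map_zero] at hwp
    apply hp0
    have := congrArg e hwp
    simpa using this.symm
  · rw [hwp]; simp
  · intro v hv
    rw [Cub.comap_apply, hwp, LinearEquiv.apply_symm_apply] at hv ⊢
    exact he _ hv

/-- the neighbours of a plane through an Eckardt point -/
theorem exists_neighbours [FiniteDimensional ℂ V] (hV : finrank ℂ V = 6) {p : V} (hp0 : p ≠ 0)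
    (he : ∀ v, c.T p p v = 0 → c.T p v v = 0) {A : Submodule ℂ V} (hA : c.Pl A) (hp : p ∈ A) :
    ∃ B C : Submodule ℂ V, c.Pl B ∧ c.Pl C ∧ p ∈ B ∧ p ∈ C ∧ B ≠ A ∧ C ≠ A ∧
      finrank ℂ (A ⊓ B : Submodule ℂ V) = 2 ∧ finrank ℂ (A ⊓ C : Submodule ℂ V) = 2 ∧
      ¬ C ≤ A ⊔ B := by
  obtain ⟨e, heA⟩ := Cub.exists_equiv hV hA.rank
  obtain ⟨hP, w, hw0, hwp, he'⟩ := eck_coord hp0 he hA hp heA
  obtain ⟨B, C, hB, hC, hpB, hpC, hBne, hCne, hBr, hCr, hnle⟩ := exists_neighbours0 hP hw0 he'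
  have hnle' : ¬ C.map (e : (I6 → ℂ) →ₗ[ℂ] V) ≤ A ⊔ B.map (e : (I6 → ℂ) →ₗ[ℂ] V) := by
    intro hle
    apply hnle
    have h2 : C.map (e : (I6 → ℂ) →ₗ[ℂ] V) ≤ (P0 ⊔ B).map (e : (I6 → ℂ) →ₗ[ℂ] V) := by
      rw [Submodule.map_sup, map_P0 heA]; exact hle
    intro x hx
    have h3 : (e : (I6 → ℂ) →ₗ[ℂ] V) x ∈ (P0 ⊔ B).map (e : (I6 → ℂ) →ₗ[ℂ] V) :=
      h2 (Submodule.mem_map_of_mem hx)
    obtain ⟨y, hy, hyx⟩ := h3
    have h4 : y = x := e.injective hyx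
    rwa [← h4]
  have hpm : ∀ D : Submodule ℂ (I6 → ℂ), iY ℂ w ∈ D → p ∈ D.map (e : (I6 → ℂ) →ₗ[ℂ] V) := by
    intro D hD
    rw [← hwp]
    exact Submodule.mem_map_of_mem (f := (e : (I6 → ℂ) →ₗ[ℂ] V)) hD
  exact ⟨B.map (e : (I6 → ℂ) →ₗ[ℂ] V), C.map (e : (I6 → ℂ) →ₗ[ℂ] V), pl_map hB, pl_map hC,
    hpm B hpB, hpm C hpC, map_ne heA hBne, map_ne heA hCne, (finrank_map_inf heA B).trans hBr,
    (finrank_map_inf heA C).trans hCr, hnle'⟩

/-- at most one plane through an Eckardt point is collinear with a plane off the point -/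
theorem unique_collinear [FiniteDimensional ℂ V] (hV : finrank ℂ V = 6) {p : V}
    (hpp : c.T p p p = 0) (he : ∀ v, c.T p p v = 0 → c.T p v v = 0) {W : Submodule ℂ V}
    (hW : c.Pl W) (hpW : p ∉ W) :
    ∃ Q : Submodule ℂ V, ∀ B, c.Pl B → p ∈ B → finrank ℂ (W ⊓ B : Submodule ℂ V) = 2 → B = Q := by
  refine ⟨(W ⊓ LinearMap.ker (c.T p p)) ⊔ ℂ ∙ p, fun B hB hpB hWB => ?_⟩
  have hex : ∃ x ∈ W, c.T p p x ≠ 0 := by
    by_contra hcon
    push Not at hcon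
    exact hpW (mem_of_le_ker hV hpp he hW fun x hx => LinearMap.mem_ker.mpr (hcon x hx))
  have h1 := finrank_inf_ker W (c.T p p) hex
  rw [hW.rank] at h1
  have h2 : (W ⊓ B : Submodule ℂ V) = W ⊓ LinearMap.ker (c.T p p) := by
    apply Submodule.eq_of_le_of_finrank_le (inf_le_inf_left _ (pl_le_ker hB hpB))
    omega
  symm
  rw [← h2]
  apply Submodule.eq_of_le_of_finrank_le
  · refine sup_le inf_le_right ?_
    rw [Submodule.span_singleton_le_iff_mem]; exact hpB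
  · rw [hB.rank]
    have h3 : finrank ℂ (W ⊓ B : Submodule ℂ V) <
        finrank ℂ ((W ⊓ B) ⊔ ℂ ∙ p : Submodule ℂ V) := by
      apply Submodule.finrank_lt_finrank_of_lt
      rw [lt_iff_le_and_ne]
      refine ⟨le_sup_left, fun h => hpW ?_⟩
      have : p ∈ (W ⊓ B : Submodule ℂ V) := by
        rw [h]; exact Submodule.mem_sup_right (Submodule.mem_span_singleton_self _)
      exact this.1
    omega

/-- a plane off an Eckardt point forces two disjoint planes -/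
theorem disjoint_of_off [FiniteDimensional ℂ V] (hV : finrank ℂ V = 6) {p : V} (hp0 : p ≠ 0)
    (he : ∀ v, c.T p p v = 0 → c.T p v v = 0) {A W : Submodule ℂ V} (hA : c.Pl A) (hp : p ∈ A)
    (hW : c.Pl W) (hpW : p ∉ W) : ∃ B D : Submodule ℂ V, c.Pl B ∧ c.Pl D ∧ B ⊓ D = ⊥ := by
  by_contra hcon
  push Not at hcon
  have hmeet : ∀ B D, c.Pl B → c.Pl D → B ⊓ D ≠ ⊥ := fun B D hB hD h => hcon B D hB hD h
  have hpp : c.T p p p = 0 := hA.iso p hp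
  obtain ⟨Q, hQ⟩ := unique_collinear hV hpp he hW hpW
  -- every triple contains the special plane
  have key : ∀ B D : Submodule ℂ V, c.Pl B → c.Pl D → p ∈ B → p ∈ D → B ≠ D →
      finrank ℂ (B ⊓ D : Submodule ℂ V) = 2 → c.Pl Q ∧ Q ≤ B ⊔ D := by
    intro B D hB hD hpB hpD hBD h2
    obtain ⟨W3, hW3, h31, h32, hle, h13, h23, hthree⟩ := Cub.third hV hB hD hBD h2
    have hp3 : p ∈ W3 := mem_of_le_ker hV hpp he hW3
      (hle.trans (sup_le (pl_le_ker hB hpB) (pl_le_ker hD hpD)))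
    have hex := (Cub.exactly_one hV hB hD hW3 hW h2 h13 h23 hle hthree
      (by rintro rfl; exact hpW hpB) (by rintro rfl; exact hpW hpD)
      (by rintro rfl; exact hpW hp3) (hmeet _ _ hW hB) (hmeet _ _ hW hD) (hmeet _ _ hW hW3)).1
    rcases hex with h | h | h
    · rw [← hQ B hB hpB h]; exact ⟨hB, le_sup_left⟩
    · rw [← hQ D hD hpD h]; exact ⟨hD, le_sup_right⟩
    · rw [← hQ W3 hW3 hp3 h]; exact ⟨hW3, hle⟩
  -- every plane through the point is the special plane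
  have hall : ∀ B : Submodule ℂ V, c.Pl B → p ∈ B → B = Q := by
    intro B hB hpB
    by_contra hne
    obtain ⟨D, D', hD, hD', hpD, hpD', hDB, hDB', h2, h2', hnle⟩ :=
      exists_neighbours hV hp0 he hB hpB
    obtain ⟨hQ1, h3⟩ := key B D hB hD hpB hpD hDB.symm h2
    obtain ⟨-, h4⟩ := key B D' hB hD' hpB hpD' hDB'.symm h2'
    have hlt : finrank ℂ B < finrank ℂ (B ⊔ Q : Submodule ℂ V) := by
      apply Submodule.finrank_lt_finrank_of_lt
      rw [lt_iff_le_and_ne]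
      refine ⟨le_sup_left, fun h => hne ?_⟩
      symm
      apply Submodule.eq_of_le_of_finrank_eq
      · rw [h]; exact le_sup_right
      · rw [hQ1.rank, hB.rank]
    rw [hB.rank] at hlt
    have hr : finrank ℂ (B ⊔ D : Submodule ℂ V) = 4 := by
      have := Submodule.finrank_sup_add_finrank_inf_eq B D
      rw [hB.rank, hD.rank, h2] at this; omega
    have hr' : finrank ℂ (B ⊔ D' : Submodule ℂ V) = 4 := by
      have := Submodule.finrank_sup_add_finrank_inf_eq B D'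
      rw [hB.rank, hD'.rank, h2'] at this; omega
    have e1 : B ⊔ Q = B ⊔ D := Submodule.eq_of_le_of_finrank_le (sup_le le_sup_left h3)
      (by omega)
    have e2 : B ⊔ Q = B ⊔ D' := Submodule.eq_of_le_of_finrank_le (sup_le le_sup_left h4)
      (by omega)
    apply hnle
    rw [← e1, e2]
    exact le_sup_right
  obtain ⟨D, -, hD, -, hpD, -, hDA, -⟩ := exists_neighbours hV hp0 he hA hp
  exact hDA ((hall D hD hpD).trans (hall A hA hp).symm)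

end Pool.Agent.Helper79.HR
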