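import Pool.Agent.Helper79.HR.EP3

set_option autoImplicit false

/-! Two Eckardt points on a plane. -/

namespace Pool.Agent.Helper79.HR

open Module Submodule Pool.Agent.Helper16 Pool.Agent.Helper16.Cub

variable {V : Type*} [AddCommGroup V] [Module ℂ V] {c : Cub V}

/-- three planes containing a common line span a space of dimension four -/
theorem le_sup_of_common [FiniteDimensional ℂ V] (hV : finrank ℂ V = 6) {A B C : Submodule ℂ V}
    (hA : c.Pl A) (hB : c.Pl B) (hC : c.Pl C) (h2 : finrank ℂ (A ⊓ B : Submodule ℂ V) = 2)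
    (hle : A ⊓ B ≤ C) : C ≤ A ⊔ B := by
  have hr : finrank ℂ (A ⊔ B : Submodule ℂ V) = 4 := by
    have := Submodule.finrank_sup_add_finrank_inf_eq A B
    rw [hA.rank, hB.rank, h2] at this; omega
  by_contra hn
  have hlt : finrank ℂ (A ⊔ B : Submodule ℂ V) < finrank ℂ (A ⊔ B ⊔ C : Submodule ℂ V) := by
    apply Submodule.finrank_lt_finrank_of_lt
    rw [lt_iff_le_and_ne]
    refine ⟨le_sup_left, fun h => hn ?_⟩
    rw [h]; exact le_sup_right
  refine c.ns1 (W := A ⊓ B) (U := A ⊔ B ⊔ C) (by omega) (by omega) ?_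
  intro x hx u hu
  obtain ⟨y, hy, z, hz, rfl⟩ := Submodule.mem_sup.mp hu
  obtain ⟨a, ha, b, hb, rfl⟩ := Submodule.mem_sup.mp hy
  rw [map_add, map_add, hA.iso.two hx.1 ha, hB.iso.two hx.2 hb, hC.iso.two (hle hx) hz]
  ring

/-- two different Eckardt points on a plane force two disjoint planes -/
theorem disjoint_of_two [FiniteDimensional ℂ V] (hV : finrank ℂ V = 6) {p q : V} (hp0 : p ≠ 0)
    (hq0 : q ≠ 0) (hpq : q ∉ (ℂ ∙ p)) (he : ∀ v, c.T p p v = 0 → c.T p v v = 0)
    (hf : ∀ v, c.T q q v = 0 → c.T q v v = 0) {A : Submodule ℂ V} (hA : c.Pl A) (hp : p ∈ A)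
    (hq : q ∈ A) : ∃ B D : Submodule ℂ V, c.Pl B ∧ c.Pl D ∧ B ⊓ D = ⊥ := by
  obtain ⟨B, C, hB, hC, hpB, hpC, hBA, hCA, h2, h2', hnle⟩ := exists_neighbours hV hp0 he hA hp
  by_cases hqB : q ∈ B
  · by_cases hqC : q ∈ C
    · exfalso
      apply hnle
      apply le_sup_of_common hV hA hB hC h2
      have hK : finrank ℂ (ℂ ∙ p ⊔ ℂ ∙ q : Submodule ℂ V) = 2 := by
        have h1 : (ℂ ∙ p ⊓ ℂ ∙ q : Submodule ℂ V) = ⊥ := by
          rw [Submodule.eq_bot_iff]
          rintro x ⟨hx, hx'⟩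
          obtain ⟨s, rfl⟩ := Submodule.mem_span_singleton.mp hx
          obtain ⟨t, ht⟩ := Submodule.mem_span_singleton.mp hx'
          by_contra hs
          apply hpq
          have ht0 : t ≠ 0 := by
            rintro rfl
            rw [zero_smul] at ht; exact hs ht.symm
          rw [Submodule.mem_span_singleton]
          refine ⟨t⁻¹ * s, ?_⟩
          rw [mul_smul, ← ht, smul_smul, inv_mul_cancel₀ ht0, one_smul]
        have h3 := Submodule.finrank_sup_add_finrank_inf_eq (ℂ ∙ p) (ℂ ∙ q)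
        rw [h1, finrank_bot, finrank_span_singleton hp0, finrank_span_singleton hq0] at h3
        omega
      have hle : ∀ X : Submodule ℂ V, p ∈ X → q ∈ X → ℂ ∙ p ⊔ ℂ ∙ q ≤ X := by
        intro X h1 h2
        refine sup_le ?_ ?_
        · rw [Submodule.span_singleton_le_iff_mem]; exact h1
        · rw [Submodule.span_singleton_le_iff_mem]; exact h2
      have h5 : (ℂ ∙ p ⊔ ℂ ∙ q : Submodule ℂ V) = A ⊓ B :=
        Submodule.eq_of_le_of_finrank_eq (le_inf (hle A hp hq) (hle B hpB hqB)) (by omega)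
      rw [← h5]
      exact hle C hpC hqC
    · exact disjoint_of_off hV hq0 hf hA hq hC hqC
  · exact disjoint_of_off hV hq0 hf hA hq hB hqB

end Pool.Agent.Helper79.HR
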