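import Mathlib
import Pool.Agent.Helper79.HR.EP2

namespace Pool.Agent.Helper16.Cub
end Pool.Agent.Helper16.Cub

set_option autoImplicit false

/-! Eckardt points: exactly five nodes on the tangent line. -/

namespace Pool.Agent.Helper79.HR

open MvPolynomial Module Pool.Agent.Helper16 Pool.Agent.Helper16.Cub

variable {c : Cub (I6 → ℂ)}

/-- restriction to a line -/
noncomputable def lin (b e : Fin 3 → ℂ) (H : R3) : Polynomial ℂ :=
  aeval (fun k => Polynomial.C (b k) + Polynomial.C (e k) * Polynomial.X) H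

theorem eval_lin (b e : Fin 3 → ℂ) (t : ℂ) (H : R3) : (lin b e H).eval t = eval (b + t • e) H := by
  have h1 : (Polynomial.evalRingHom t).comp (aeval (fun k => Polynomial.C (b k) +
      Polynomial.C (e k) * Polynomial.X : Fin 3 → Polynomial ℂ) :
      MvPolynomial (Fin 3) ℂ →ₐ[ℂ] Polynomial ℂ).toRingHom = eval (b + t • e) := by
    apply MvPolynomial.ringHom_ext
    · intro r; simp
    · intro k; simp; ring
  exact RingHom.congr_fun h1 H

theorem deriv_lin (b e : Fin 3 → ℂ) (t : ℂ) (H : R3) :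
    (lin b e H).derivative.eval t = eval (b + t • e) (dv e H) := by
  induction H using MvPolynomial.induction_on with
  | C a => simp [lin, dv_apply]
  | add p q hp hq =>
    have : lin b e (p + q) = lin b e p + lin b e q := by simp [lin]
    rw [this, Polynomial.derivative_add, Polynomial.eval_add, hp, hq, map_add, map_add]
  | mul_X p n hp =>
    have : lin b e (p * X n) = lin b e p * (Polynomial.C (b n) + Polynomial.C (e n) *
      Polynomial.X) := by simp [lin]
    rw [this, Polynomial.derivative_mul, Polynomial.eval_add, Polynomial.eval_mul,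
      Polynomial.eval_mul, hp, eval_lin, dv_mul, RingHom.map_add, RingHom.map_mul,
      RingHom.map_mul]
    simp [dv_apply, Pi.single_apply]
    ring

theorem natDegree_lin (b e : Fin 3 → ℂ) {H : R3} {n : ℕ} (hH : H.IsHomogeneous n) :
    (lin b e H).natDegree ≤ n := by
  have h1 := MvPolynomial.aeval_natDegree_le (n := 1) H hH.totalDegree_le
    (fun k => Polynomial.C (b k) + Polynomial.C (e k) * Polynomial.X) (fun k => by
      compute_degree)
  rw [mul_one] at h1
  exact h1

theorem coeff_lin (b e : Fin 3 → ℂ) {H : R3} {n : ℕ} (hH : H.IsHomogeneous n) :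
    (lin b e H).coeff n = eval e H := by
  have h1 : lin e b H = Polynomial.reflect n (lin b e H) := by
    apply Polynomial.eq_of_infinite_eval_eq
    apply Set.Infinite.mono (s := {0}ᶜ)
    · intro s hs
      have hs0 : s ≠ 0 := hs
      change Polynomial.eval s _ = Polynomial.eval s _
      rw [eval_lin]
      have hinv : Invertible (s⁻¹) := invertibleOfNonzero (inv_ne_zero hs0)
      have h2 := Polynomial.eval₂_reflect_mul_pow (RingHom.id ℂ) (s⁻¹) n (lin b e H)
        (natDegree_lin b e hH)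
      rw [invOf_eq_inv, inv_inv] at h2
      change Polynomial.eval s _ * _ = Polynomial.eval (s⁻¹) _ at h2
      rw [eval_lin] at h2
      have h3 : e + s • b = s • (b + s⁻¹ • e) := by
        rw [smul_add, smul_smul, mul_inv_cancel₀ hs0, one_smul, add_comm]
      rw [h3, eval_smul_of_hom hH, ← h2, inv_pow]
      field_simp
    · exact (Set.finite_singleton 0).infinite_compl
  have h4 := congrArg (fun q => Polynomial.coeff q 0) h1
  simp only [Polynomial.coeff_reflect, Polynomial.revAt_zero] at h4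
  rw [← h4, Polynomial.coeff_zero_eq_eval_zero, eval_lin, zero_smul, add_zero]

/-- a node on the tangent line kills the residual quintic -/
theorem node_zero {H : R3} {l : (Fin 3 → ℂ) →ₗ[ℂ] ℂ} (hl : l ≠ 0)
    (hD : c.disc = linp l * H) {b : Fin 3 → ℂ} (hb : c.C2 b) (hlb : l b = 0) : eval b H = 0 := by
  obtain ⟨τ, hτ⟩ : ∃ τ, l τ ≠ 0 := by
    by_contra hcon
    push Not at hcon
    exact hl (LinearMap.ext fun x => by rw [hcon x]; rfl)
  have h1 : eval b (dv τ c.disc) = 0 := by
    rw [eval_dv]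
    refine Finset.sum_eq_zero fun k _ => ?_
    rw [hb.dif_zero k, mul_zero]
  rw [hD, dv_mul, map_add, map_mul, map_mul, eval_linp, hlb, zero_mul, zero_add,
    eval_dv_linp] at h1
  exact (mul_eq_zero.mp h1).resolve_right hτ

/-- simple zeros -/
theorem simple_zero (hP : c.Iso P0) {H : R3} {l : (Fin 3 → ℂ) →ₗ[ℂ] ℂ}
    (hD : c.disc = linp l * H) {b : Fin 3 → ℂ} (hb : b ≠ 0) (hlb : l b = 0) (hHb : eval b H = 0)
    {τ : Fin 3 → ℂ} (hτ : τ ∉ (ℂ ∙ b)) (hlτ : l τ = 0) : eval b (dv τ H) ≠ 0 := fun h0 =>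
  transversal hP hD hb (by rw [eval_linp]; exact hlb) hHb hτ (by rw [eval_dv_linp]; exact hlτ) h0

theorem exists_other {l : (Fin 3 → ℂ) →ₗ[ℂ] ℂ} {b : Fin 3 → ℂ} (hb : b ≠ 0) :
    ∃ e : Fin 3 → ℂ, e ∉ (ℂ ∙ b) ∧ l e = 0 := by
  by_contra hcon
  push Not at hcon
  have hle : LinearMap.ker l ≤ ℂ ∙ b := by
    intro z hz
    by_contra hz1
    exact hcon z hz1 (LinearMap.mem_ker.mp hz)
  have h1 := Submodule.finrank_mono hle
  rw [finrank_span_singleton hb] at h1
  have h2 := LinearMap.finrank_range_add_finrank_ker l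
  have h3 : finrank ℂ (LinearMap.range l) ≤ 1 := by
    have := Submodule.finrank_le (LinearMap.range l)
    simpa using this
  simp at h2; omega

/-- at most five nodes on the tangent line of an Eckardt point -/
theorem nodes_le_five (hP : c.Iso P0) {w : Fin 3 → ℂ} (hw : w ≠ 0)
    (he : ∀ v, c.T (iY ℂ w) (iY ℂ w) v = 0 → c.T (iY ℂ w) v v = 0) {N : ℕ}
    (b : Fin N → (Fin 3 → ℂ)) (hb0 : ∀ i, b i ≠ 0) (hb : ∀ i j, i ≠ j → b i ∉ (ℂ ∙ b j))
    (hC : ∀ i, c.C2 (b i)) (hl : ∀ i, c.tl w (b i) = 0) : N ≤ 5 := by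
  obtain ⟨H, hH5, hD⟩ := eck_disc hP hw he
  have hl0 := tl_ne_zero hP hw
  have hH0 : H ≠ 0 := by
    rintro rfl
    exact disc_ne_zero hP (by rw [hD, mul_zero])
  have hrel : IsRelPrime (linp (c.tl w)) H := by
    rw [(linp_irreducible hl0).isRelPrime_iff_not_dvd]
    rintro ⟨K, hK⟩
    obtain ⟨b1, hb1, hlb1, -⟩ := exists_root_on_line (l := c.tl w) (q := (0 : R3)) (by simp)
    obtain ⟨e, he0, hle⟩ := exists_other (l := c.tl w) hb1
    refine simple_zero hP hD hb1 hlb1 ?_ he0 hle ?_
    · rw [hK, map_mul, eval_linp, hlb1, zero_mul]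
    · rw [hK, dv_mul, map_add, map_mul, map_mul, eval_linp, hlb1, eval_dv_linp, hle]
      ring
  have := bezout (linp_hom _) hH5 hrel hH0 b hb0 hb
    (fun i => by rw [eval_linp]; exact hl i) (fun i => node_zero hl0 hD (hC i) (hl i))
  omega

/-- five nodes on the tangent line of an Eckardt point -/
theorem five_nodes (hP : c.Iso P0) {w : Fin 3 → ℂ} (hw : w ≠ 0)
    (he : ∀ v, c.T (iY ℂ w) (iY ℂ w) v = 0 → c.T (iY ℂ w) v v = 0) :
    ∃ b : Fin 5 → (Fin 3 → ℂ), (∀ i, b i ≠ 0) ∧ (∀ i j, i ≠ j → b i ∉ (ℂ ∙ b j)) ∧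
      (∀ i, c.C2 (b i)) ∧ ∀ i, c.tl w (b i) = 0 := by
  obtain ⟨H, hH5, hD⟩ := eck_disc hP hw he
  have hl := tl_ne_zero hP hw
  have hnode : ∀ b, b ≠ 0 → c.tl w b = 0 → eval b H = 0 → c.C2 b := by
    intro b hb hlb hHb
    refine sing hP hb ?_ ?_
    · rw [hD, map_mul, hHb, mul_zero]
    · intro k
      rw [hD, Derivation.leibniz, smul_eq_mul, smul_eq_mul, map_add, map_mul, map_mul, hHb,
        eval_linp, hlb]
      ring
  have hH0 : eval 0 H = 0 := eval_zero_of_hom hH5 (by norm_num)
  obtain ⟨b1, hb1, hlb1, hHb1⟩ := exists_root_on_line (l := c.tl w) (q := H) hH0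
  obtain ⟨e, he0, hle⟩ := exists_other (l := c.tl w) hb1
  have hne0 : lin b1 e H ≠ 0 := by
    intro h0
    have h1 := deriv_lin b1 e 0 H
    rw [h0] at h1
    simp only [Polynomial.derivative_zero, Polynomial.eval_zero, zero_smul, add_zero] at h1
    exact simple_zero hP hD hb1 hlb1 hHb1 he0 hle h1.symm
  -- a point of the line off the quintic
  obtain ⟨f, hf0, hlf, hHf⟩ : ∃ f : Fin 3 → ℂ, f ∉ (ℂ ∙ b1) ∧ c.tl w f = 0 ∧ eval f H ≠ 0 := by
    obtain ⟨s, hs⟩ : ∃ s : ℂ, (lin b1 e H).eval s ≠ 0 := by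
      by_contra hcon
      push Not at hcon
      exact hne0 (Polynomial.funext fun s => by rw [hcon s, Polynomial.eval_zero])
    rw [eval_lin] at hs
    refine ⟨b1 + s • e, ?_, by rw [map_add, map_smul, hlb1, hle, smul_zero, add_zero], hs⟩
    intro hmem
    have hs0 : s ≠ 0 := by
      rintro rfl
      rw [zero_smul, add_zero] at hs
      exact hs hHb1
    apply he0
    have h1 := Submodule.sub_mem _ hmem (Submodule.mem_span_singleton_self b1)
    have h2 : s • e ∈ (ℂ ∙ b1) := by simpa using h1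
    have h3 := Submodule.smul_mem _ s⁻¹ h2
    rwa [smul_smul, inv_mul_cancel₀ hs0, one_smul] at h3
  -- the restriction has degree five and simple roots
  set ψ := lin b1 f H with hψ
  have hco : ψ.coeff 5 ≠ 0 := by rw [hψ, coeff_lin b1 f hH5]; exact hHf
  have hψ0 : ψ ≠ 0 := by
    intro h; rw [h] at hco; simp at hco
  have hdeg : ψ.natDegree = 5 :=
    le_antisymm (natDegree_lin b1 f hH5) (Polynomial.le_natDegree_of_ne_zero hco)
  have hpt : ∀ t : ℂ, b1 + t • f ≠ 0 := by
    intro t h
    by_cases ht : t = 0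
    · rw [ht, zero_smul, add_zero] at h; exact hb1 h
    · apply hf0
      rw [Submodule.mem_span_singleton]
      refine ⟨-t⁻¹, ?_⟩
      have h1 : b1 = -(t • f) := eq_neg_of_add_eq_zero_left h
      rw [h1, neg_smul, smul_neg, neg_neg, smul_smul, inv_mul_cancel₀ ht, one_smul]
  have hfpt : ∀ t : ℂ, f ∉ (ℂ ∙ (b1 + t • f)) := by
    intro t h
    obtain ⟨s, hs⟩ := Submodule.mem_span_singleton.mp h
    have hs0 : s ≠ 0 := by
      rintro rfl
      rw [zero_smul] at hs
      exact hf0 (by rw [← hs]; exact Submodule.zero_mem _)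
    have h1 : s • b1 = (1 - s * t) • f := by
      rw [sub_smul, one_smul, mul_smul]
      rw [smul_add] at hs
      exact eq_sub_of_add_eq hs
    by_cases h2 : 1 - s * t = 0
    · rw [h2, zero_smul] at h1
      rcases smul_eq_zero.mp h1 with h3 | h3
      · exact hs0 h3
      · exact hb1 h3
    · apply hf0
      rw [Submodule.mem_span_singleton]
      refine ⟨(1 - s * t)⁻¹ * s, ?_⟩
      rw [mul_smul, h1, smul_smul, inv_mul_cancel₀ h2, one_smul]
  have hline : ∀ t : ℂ, c.tl w (b1 + t • f) = 0 := by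
    intro t; rw [map_add, map_smul, hlb1, hlf, smul_zero, add_zero]
  have hnd : ψ.roots.Nodup := by
    rw [Multiset.nodup_iff_count_le_one]
    intro t
    rw [Polynomial.count_roots]
    by_contra hlt
    push Not at hlt
    have h1 : ψ.IsRoot t := (Polynomial.rootMultiplicity_pos hψ0).mp (by omega)
    have h2 := Polynomial.isRoot_iterate_derivative_of_lt_rootMultiplicity hlt
    simp only [Function.iterate_one] at h2
    have h3 : eval (b1 + t • f) (dv f H) = 0 := by rw [← deriv_lin]; exact h2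
    have h4 : eval (b1 + t • f) H = 0 := by rw [← eval_lin]; exact h1
    exact simple_zero hP hD (hpt t) (hline t) h4 (hfpt t) hlf h3
  have hcard : ψ.roots.toFinset.card = 5 := by
    rw [Multiset.toFinset_card_of_nodup hnd, ← hdeg]
    exact (IsAlgClosed.splits ψ).natDegree_eq_card_roots.symm
  let g := (ψ.roots.toFinset.equivFinOfCardEq hcard).symm
  have hroot : ∀ i, eval (b1 + (g i : ℂ) • f) H = 0 := by
    intro i
    have h1 : (g i : ℂ) ∈ ψ.roots.toFinset := (g i).2
    rw [Multiset.mem_toFinset, Polynomial.mem_roots hψ0] at h1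
    rw [← eval_lin]; exact h1
  refine ⟨fun i => b1 + (g i : ℂ) • f, fun i => hpt _, ?_, fun i => hnode _ (hpt _) (hline _)
    (hroot i), fun i => hline _⟩
  intro i j hij hmem
  obtain ⟨s, hs⟩ := Submodule.mem_span_singleton.mp hmem
  have h1 : (s - 1) • b1 = ((g i : ℂ) - s * (g j : ℂ)) • f := by
    rw [sub_smul, sub_smul, one_smul, mul_smul]
    rw [smul_add] at hs
    have : s • b1 - b1 = (g i : ℂ) • f - s • (g j : ℂ) • f := by
      rw [sub_eq_sub_iff_add_eq_add, hs]; exact add_comm _ _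
    exact this
  have h2 : (g i : ℂ) - s * (g j : ℂ) = 0 := by
    by_contra h3
    apply hf0
    rw [Submodule.mem_span_singleton]
    refine ⟨((g i : ℂ) - s * (g j : ℂ))⁻¹ * (s - 1), ?_⟩
    rw [mul_smul, h1, smul_smul, inv_mul_cancel₀ h3, one_smul]
  rw [h2, zero_smul] at h1
  have h4 : s = 1 := by
    rcases smul_eq_zero.mp h1 with h3 | h3
    · linear_combination h3
    · exact absurd h3 hb1
  rw [h4, one_mul, sub_eq_zero] at h2
  exact hij (g.injective (Subtype.ext h2))

end Pool.Agent.Helper79.HR
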