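import Mathlib
import Pool.Agent.Helper79.HR.EP5
import Pool.Agent.Helper16.CubicN20
import Pool.Agent.Helper79.HR.EP3

namespace Pool.Agent.Helper16.Cub
end Pool.Agent.Helper16.Cub

set_option autoImplicit false

/-! Eckardt points: ten neighbours and twenty-seven planes. -/

namespace Pool.Agent.Helper79.HR

open Module Submodule Pool.Agent.Helper16 Pool.Agent.Helper16.Cub

/-- ten neighbours of the base plane -/
theorem ten_neighbours0 {c : Cub (I6 → ℂ)} (hP : c.Iso P0) {w : Fin 3 → ℂ} (hw : w ≠ 0)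
    (he : ∀ v, c.T (iY ℂ w) (iY ℂ w) v = 0 → c.T (iY ℂ w) v v = 0) :
    {B : Submodule ℂ (I6 → ℂ) | c.Pl B ∧ iY ℂ w ∈ B ∧ B ≠ P0 ∧
      finrank ℂ (P0 ⊓ B : Submodule ℂ (I6 → ℂ)) = 2}.encard = 10 := by
  classical
  apply le_antisymm
  · by_contra hlt
    push Not at hlt
    have h11 : ((11 : ℕ) : ℕ∞) ≤ {B : Submodule ℂ (I6 → ℂ) | c.Pl B ∧ iY ℂ w ∈ B ∧ B ≠ P0 ∧
        finrank ℂ (P0 ⊓ B : Submodule ℂ (I6 → ℂ)) = 2}.encard := by
      have := Order.add_one_le_of_lt hlt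
      refine le_trans ?_ this
      norm_num
    obtain ⟨T, hT, hT11⟩ := exists_finset_of_le h11
    obtain ⟨n, b, W, hn, hb0, hb, hC, hWT, hWU⟩ := star_points hP T (fun W hW =>
      ⟨(hT W hW).1, (hT W hW).2.2.1, by rw [inf_comm]; exact (hT W hW).2.2.2⟩)
    have hl : ∀ i, c.tl w (b i) = 0 := by
      intro i
      obtain ⟨h1, h2, h3, h4⟩ := hT _ (hWT i)
      have h5 : iZ ℂ (b i) ∈ W i ⊔ P0 := by
        rw [hWU i]; exact Submodule.mem_sup_right (Submodule.mem_span_singleton_self _)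
      have h6 : W i ⊔ P0 ≤ LinearMap.ker (c.T (iY ℂ w) (iY ℂ w)) :=
        sup_le (pl_le_ker h1 h2) (pl_le_ker (pl_P0 hP) (iY_mem _))
      exact LinearMap.mem_ker.mp (h6 h5)
    have := nodes_le_five hP hw he b hb0 hb hC hl
    omega
  · obtain ⟨b, hb0, hb, hC, hl⟩ := five_nodes hP hw he
    have hex : ∀ i, ∃ A A' : Submodule ℂ (I6 → ℂ), A ≠ A' ∧
        (c.Pl A ∧ iY ℂ w ∈ A ∧ A ≠ P0 ∧ finrank ℂ (P0 ⊓ A : Submodule ℂ (I6 → ℂ)) = 2) ∧
        (c.Pl A' ∧ iY ℂ w ∈ A' ∧ A' ≠ P0 ∧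
          finrank ℂ (P0 ⊓ A' : Submodule ℂ (I6 → ℂ)) = 2) ∧
        P0 ⊔ A = P0 ⊔ ℂ ∙ iZ ℂ (b i) ∧ P0 ⊔ A' = P0 ⊔ ℂ ∙ iZ ℂ (b i) := by
      intro i
      obtain ⟨A, hA, hAne, hAr, hAle⟩ := plane_over hP (hb0 i) (hC i)
      have hsup := sup_of_plane (hb0 i) hA hAr hAle
      obtain ⟨A', hA', h31, h32, hle, h13, h23, -⟩ :=
        Cub.third finrank_I6 (pl_P0 hP) hA hAne.symm (by rw [inf_comm]; exact hAr)
      rw [hsup] at hle
      refine ⟨A, A', h32.symm, ⟨hA, eck_mem hP he (hl i) hA hAle, hAne, ?_⟩,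
        ⟨hA', eck_mem hP he (hl i) hA' hle, h31, h13⟩, hsup,
        sup_of_plane (hb0 i) hA' (by rw [inf_comm]; exact h13) hle⟩
      rw [inf_comm]; exact hAr
    choose A A' hne hA hA' hs hs' using hex
    let g : Fin 5 × Bool → Submodule ℂ (I6 → ℂ) := fun x => if x.2 then A x.1 else A' x.1
    have hgs : ∀ x, P0 ⊔ g x = P0 ⊔ ℂ ∙ iZ ℂ (b x.1) := by
      rintro ⟨i, j⟩
      cases j
      · exact hs' i
      · exact hs i
    have hginj : Function.Injective g := by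
      rintro ⟨i, j⟩ ⟨i', j'⟩ h
      have h1 := hgs (i, j)
      rw [h, hgs (i', j')] at h1
      have hii : i = i' := by
        by_contra hii
        apply hb i i' hii
        apply mem_line
        change P0 ⊔ ℂ ∙ iZ ℂ (b i') = P0 ⊔ ℂ ∙ iZ ℂ (b i) at h1
        rw [h1]
        exact Submodule.mem_sup_right (Submodule.mem_span_singleton_self _)
      subst hii
      cases j <;> cases j'
      · rfl
      · exact absurd h.symm (hne i)
      · exact absurd h (hne i)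
      · rfl
    have hgr : Set.range g ⊆ {B : Submodule ℂ (I6 → ℂ) | c.Pl B ∧ iY ℂ w ∈ B ∧ B ≠ P0 ∧
        finrank ℂ (P0 ⊓ B : Submodule ℂ (I6 → ℂ)) = 2} := by
      rintro _ ⟨⟨i, j⟩, rfl⟩
      cases j
      · exact hA' i
      · exact hA i
    have h1 := hginj.encard_range.trans (Set.encard_le_encard hgr)
    rw [ENat.card_eq_coe_fintype_card] at h1
    simpa using h1

variable {V : Type*} [AddCommGroup V] [Module ℂ V] {c : Cub V}

/-- the planes through a point collinear with a given plane -/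
def nb (c : Cub V) (p : V) (A : Submodule ℂ V) : Set (Submodule ℂ V) :=
  {B | c.Pl B ∧ p ∈ B ∧ B ≠ A ∧ finrank ℂ (A ⊓ B : Submodule ℂ V) = 2}

/-- ten neighbours -/
theorem ten_neighbours [FiniteDimensional ℂ V] (hV : finrank ℂ V = 6) {p : V} (hp0 : p ≠ 0)
    (he : ∀ v, c.T p p v = 0 → c.T p v v = 0) {A : Submodule ℂ V} (hA : c.Pl A) (hp : p ∈ A) :
    (nb c p A).encard = 10 := by
  obtain ⟨e, heA⟩ := Cub.exists_equiv hV hA.rank
  obtain ⟨hP, w, hw0, hwp, he'⟩ := eck_coord hp0 he hA hp heA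
  have h10 := ten_neighbours0 hP hw0 he'
  have himg : nb c p A = (fun B : Submodule ℂ (I6 → ℂ) => B.map (e : (I6 → ℂ) →ₗ[ℂ] V)) ''
      {B : Submodule ℂ (I6 → ℂ) | (c.comap e).Pl B ∧ iY ℂ w ∈ B ∧ B ≠ P0 ∧
        finrank ℂ (P0 ⊓ B : Submodule ℂ (I6 → ℂ)) = 2} := by
    ext D
    constructor
    · rintro ⟨h1, h2, h3, h4⟩
      have hmc : (D.comap (e : (I6 → ℂ) →ₗ[ℂ] V)).map (e : (I6 → ℂ) →ₗ[ℂ] V) = D :=
        Submodule.map_comap_eq_of_surjective e.surjective D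
      refine ⟨D.comap (e : (I6 → ℂ) →ₗ[ℂ] V), ⟨(Cub.pl_comap c e D).mpr h1, ?_, ?_, ?_⟩, hmc⟩
      · rw [Submodule.mem_comap]
        change e (iY ℂ w) ∈ D
        rw [hwp]; exact h2
      · intro h
        rw [← heA] at h
        exact h3 (Cub.comap_inj e h)
      · rw [← finrank_map_inf heA, hmc]; exact h4
    · rintro ⟨B, ⟨h1, h2, h3, h4⟩, rfl⟩
      refine ⟨pl_map h1, ?_, map_ne heA h3, (finrank_map_inf heA B).trans h4⟩
      rw [← hwp]
      exact Submodule.mem_map_of_mem (f := (e : (I6 → ℂ) →ₗ[ℂ] V)) h2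
  rw [himg, Set.InjOn.encard_image]
  · exact h10
  · intro x _ y _ hxy
    exact Submodule.map_injective_of_injective e.injective hxy

/-- exactly twenty-seven planes through an Eckardt point -/
theorem twentyseven [FiniteDimensional ℂ V] (hV : finrank ℂ V = 6) {p : V} (hp0 : p ≠ 0)
    (he : ∀ v, c.T p p v = 0 → c.T p v v = 0) {A : Submodule ℂ V} (hA : c.Pl A) (hp : p ∈ A) :
    {B : Submodule ℂ V | c.Pl B ∧ p ∈ B}.encard = 27 := by
  have hpp : c.T p p p = 0 := hA.iso p hp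
  obtain ⟨B, -, hB, -, hpB, -, hBA, -, h2, -, -⟩ := exists_neighbours hV hp0 he hA hp
  obtain ⟨C, hC, hCA, hCB, hle, h13, h23, hthree⟩ := Cub.third hV hA hB hBA.symm h2
  have hpC : p ∈ C := mem_of_le_ker hV hpp he hC
    (hle.trans (sup_le (pl_le_ker hA hp) (pl_le_ker hB hpB)))
  have hcoll : ∀ X Y : Submodule ℂ V, c.Pl X → p ∈ X → c.Pl Y → p ∈ Y → X ⊓ Y ≠ ⊥ := by
    intro X Y _ h1 _ h2 h
    apply hp0
    have : p ∈ (X ⊓ Y : Submodule ℂ V) := ⟨h1, h2⟩
    rw [h] at this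
    exact (Submodule.mem_bot ℂ).mp this
  have h8 : ∀ X Y Z : Submodule ℂ V, c.Pl X → p ∈ X → Y ∈ nb c p X → Z ∈ nb c p X → Y ≠ Z →
      (nb c p X \ {Y, Z}).encard = 8 := by
    intro X Y Z hX hpX hY hZ hYZ
    have h10 := ten_neighbours hV hp0 he hX hpX
    have hsub : ({Y, Z} : Set (Submodule ℂ V)) ⊆ nb c p X := by
      rintro x (rfl | rfl)
      · exact hY
      · exact hZ
    have h3 := Set.encard_sdiff_add_encard_of_subset hsub
    rw [h10, Set.encard_pair hYZ] at h3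
    have h4 : (nb c p X \ {Y, Z}).encard ≠ ⊤ := by
      intro h; rw [h] at h3; simp at h3
    obtain ⟨n, hn⟩ := ENat.ne_top_iff_exists.mp h4
    rw [← hn] at h3 ⊢
    have h5 : n + 2 = 10 := by exact_mod_cast h3
    have : n = 8 := by omega
    rw [this]; rfl
  have hnb : ∀ X Y : Submodule ℂ V, c.Pl Y → p ∈ Y → Y ≠ X →
      finrank ℂ (X ⊓ Y : Submodule ℂ V) = 2 → Y ∈ nb c p X := fun X Y h1 h2 h3 h4 =>
    ⟨h1, h2, h3, h4⟩
  have n1 := h8 A B C hA hp (hnb A B hB hpB hBA h2) (hnb A C hC hpC hCA h13) hCB.symm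
  have n2 := h8 B A C hB hpB (hnb B A hA hp hBA.symm (by rw [inf_comm]; exact h2))
    (hnb B C hC hpC hCB h23) hCA.symm
  have n3 := h8 C A B hC hpC (hnb C A hA hp hCA.symm (by rw [inf_comm]; exact h13))
    (hnb C B hB hpB hCB.symm (by rw [inf_comm]; exact h23)) hBA.symm
  have hex := fun (S : Submodule ℂ V) (hS : c.Pl S) (hpS : p ∈ S) (s1 : S ≠ A) (s2 : S ≠ B)
    (s3 : S ≠ C) => Cub.exactly_one hV hA hB hC hS h2 h13 h23 hle hthree s1 s2 s3
      (hcoll _ _ hS hpS hA hp) (hcoll _ _ hS hpS hB hpB) (hcoll _ _ hS hpS hC hpC)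
  have hset : {B : Submodule ℂ V | c.Pl B ∧ p ∈ B} =
      ((({A, B, C} : Set (Submodule ℂ V)) ∪ (nb c p A \ {B, C})) ∪ (nb c p B \ {A, C})) ∪
        (nb c p C \ {A, B}) := by
    ext S
    constructor
    · rintro ⟨hS, hpS⟩
      by_cases s1 : S = A
      · left; left; left; rw [s1]; simp
      by_cases s2 : S = B
      · left; left; left; rw [s2]; simp
      by_cases s3 : S = C
      · left; left; left; rw [s3]; simp
      rcases (hex S hS hpS s1 s2 s3).1 with h | h | h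
      · left; left; right
        exact ⟨⟨hS, hpS, s1, by rw [inf_comm]; exact h⟩, by simp [s2, s3]⟩
      · left; right
        exact ⟨⟨hS, hpS, s2, by rw [inf_comm]; exact h⟩, by simp [s1, s3]⟩
      · right
        exact ⟨⟨hS, hpS, s3, by rw [inf_comm]; exact h⟩, by simp [s1, s2]⟩
    · rintro (((h | h) | h) | h)
      · rcases h with rfl | rfl | rfl
        · exact ⟨hA, hp⟩
        · exact ⟨hB, hpB⟩
        · exact ⟨hC, hpC⟩
      · exact ⟨h.1.1, h.1.2.1⟩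
      · exact ⟨h.1.1, h.1.2.1⟩
      · exact ⟨h.1.1, h.1.2.1⟩
  have hd1 : Disjoint ({A, B, C} : Set (Submodule ℂ V)) (nb c p A \ {B, C}) := by
    rw [Set.disjoint_left]
    rintro x hx ⟨⟨-, -, h3, -⟩, h4⟩
    simp only [Set.mem_insert_iff, Set.mem_singleton_iff, not_or] at hx h4
    rcases hx with h | h | h
    · exact h3 h
    · exact h4.1 h
    · exact h4.2 h
  have hd2 : Disjoint ((({A, B, C} : Set (Submodule ℂ V)) ∪ (nb c p A \ {B, C})))
      (nb c p B \ {A, C}) := by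
    rw [Set.disjoint_left]
    rintro x hx ⟨⟨g1, g2, g3, g4⟩, h4⟩
    simp only [Set.mem_insert_iff, Set.mem_singleton_iff, not_or] at h4
    rcases hx with hx | hx
    · simp only [Set.mem_insert_iff, Set.mem_singleton_iff] at hx
      rcases hx with h | h | h
      · exact h4.1 h
      · exact g3 h
      · exact h4.2 h
    · refine (hex x g1 g2 h4.1 g3 h4.2).2.1 ⟨?_, ?_⟩
      · rw [inf_comm]; exact hx.1.2.2.2
      · rw [inf_comm]; exact g4
  have hd3 : Disjoint (((({A, B, C} : Set (Submodule ℂ V)) ∪ (nb c p A \ {B, C}))) ∪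
      (nb c p B \ {A, C})) (nb c p C \ {A, B}) := by
    rw [Set.disjoint_left]
    rintro x hx ⟨⟨g1, g2, g3, g4⟩, h4⟩
    simp only [Set.mem_insert_iff, Set.mem_singleton_iff, not_or] at h4
    rcases hx with (hx | hx) | hx
    · simp only [Set.mem_insert_iff, Set.mem_singleton_iff] at hx
      rcases hx with h | h | h
      · exact h4.1 h
      · exact h4.2 h
      · exact g3 h
    · refine (hex x g1 g2 h4.1 h4.2 g3).2.2.1 ⟨?_, ?_⟩
      · rw [inf_comm]; exact hx.1.2.2.2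
      · rw [inf_comm]; exact g4
    · refine (hex x g1 g2 h4.1 h4.2 g3).2.2.2 ⟨?_, ?_⟩
      · rw [inf_comm]; exact hx.1.2.2.2
      · rw [inf_comm]; exact g4
  have h3 : ({A, B, C} : Set (Submodule ℂ V)).encard = 3 :=
    Set.encard_eq_three.mpr ⟨A, B, C, hBA.symm, hCA.symm, hCB.symm, rfl⟩
  rw [hset, Set.encard_union_eq hd3, Set.encard_union_eq hd2, Set.encard_union_eq hd1, n1, n2, n3,
    h3]
  norm_num

end Pool.Agent.Helper79.HR
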