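import Mathlib

set_option autoImplicit false

namespace Pool.Agent.Helper79.HR

variable {S : Type*} [CommRing S]

/-- Pfaffian of a 4x4 principal block -/
def pf4 (M : Matrix (Fin 6) (Fin 6) S) (a b c d : Fin 6) : S :=
  M a b * M c d - M a c * M b d + M a d * M b c

/-- Pfaffian of a 6x6 skew matrix -/
def pf6 (M : Matrix (Fin 6) (Fin 6) S) : S :=
  M 0 1 * pf4 M 2 3 4 5 - M 0 2 * pf4 M 1 3 4 5 + M 0 3 * pf4 M 1 2 4 5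
    - M 0 4 * pf4 M 1 2 3 5 + M 0 5 * pf4 M 1 2 3 4

/-- upper entries of the Pfaffian adjoint -/
def pu (M : Matrix (Fin 6) (Fin 6) S) : Fin 6 → Fin 6 → S :=
  ![![0, -pf4 M 2 3 4 5, pf4 M 1 3 4 5, -pf4 M 1 2 4 5, pf4 M 1 2 3 5, -pf4 M 1 2 3 4],
    ![pf4 M 2 3 4 5, 0, -pf4 M 0 3 4 5, pf4 M 0 2 4 5, -pf4 M 0 2 3 5, pf4 M 0 2 3 4],
    ![-pf4 M 1 3 4 5, pf4 M 0 3 4 5, 0, -pf4 M 0 1 4 5, pf4 M 0 1 3 5, -pf4 M 0 1 3 4],
    ![pf4 M 1 2 4 5, -pf4 M 0 2 4 5, pf4 M 0 1 4 5, 0, -pf4 M 0 1 2 5, pf4 M 0 1 2 4],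
    ![-pf4 M 1 2 3 5, pf4 M 0 2 3 5, -pf4 M 0 1 3 5, pf4 M 0 1 2 5, 0, -pf4 M 0 1 2 3],
    ![pf4 M 1 2 3 4, -pf4 M 0 2 3 4, pf4 M 0 1 3 4, -pf4 M 0 1 2 4, pf4 M 0 1 2 3, 0]]

/-- Pfaffian adjoint -/
def pa6 (M : Matrix (Fin 6) (Fin 6) S) : Matrix (Fin 6) (Fin 6) S := Matrix.of (pu M)

/-- skew matrices -/
structure Skew (M : Matrix (Fin 6) (Fin 6) S) : Prop where
  skew : ∀ i j, M i j = - M j i
  diag : ∀ i, M i i = 0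

theorem pa6_skew (M : Matrix (Fin 6) (Fin 6) S) : Skew (pa6 M) where
  skew i j := by fin_cases i <;> fin_cases j <;> simp [pa6, pu]
  diag i := by fin_cases i <;> simp [pa6, pu]

theorem pa6_mul (M : Matrix (Fin 6) (Fin 6) S) (h : Skew M) : pa6 M * M = pf6 M • 1 := by
  have d := h.diag
  have e := h.skew
  ext i j
  simp only [Matrix.mul_apply, Fin.sum_univ_six, Matrix.smul_apply, smul_eq_mul]
  fin_cases i <;> fin_cases j <;>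
  simp only [pa6, pu, pf6, pf4, Matrix.of_apply, Fin.mk_zero, Fin.mk_one, Fin.reduceFinMk,
    Matrix.cons_val_zero, Matrix.cons_val_one, Matrix.cons_val, Matrix.one_apply_eq, d,
    e 1 0, e 2 0, e 3 0, e 4 0, e 5 0, e 2 1, e 3 1, e 4 1, e 5 1, e 3 2, e 4 2, e 5 2, e 4 3,
    e 5 3, e 5 4, ne_eq, Fin.reduceEq, not_false_eq_true, Matrix.one_apply_ne] <;>
  ring

end Pool.Agent.Helper79.HR
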