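import Pool.Agent.Helper79.HR.PF1

set_option autoImplicit false

namespace Pool.Agent.Helper79.HR

variable {S : Type*} [CommRing S]

/-- the polar form of the Pfaffian -/
def dpf (M N : Matrix (Fin 6) (Fin 6) S) : S :=
  -(∑ i, ∑ j, if i < j then pa6 M i j * N i j else 0)

theorem pf6_add (M N : Matrix (Fin 6) (Fin 6) S) (t : S) :
    pf6 (M + t • N) = pf6 M + t * dpf M N + t ^ 2 * dpf N M + t ^ 3 * pf6 N := by
  simp only [dpf, Fin.sum_univ_six]
  simp only [pa6, pu, pf6, pf4, Matrix.of_apply, Matrix.add_apply, Matrix.smul_apply, smul_eq_mul,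
    Matrix.cons_val_zero, Matrix.cons_val_one, Matrix.cons_val, Fin.reduceLT, if_true, if_false,
    Fin.isValue, lt_self_iff_false]
  ring

theorem two_dpf (M N : Matrix (Fin 6) (Fin 6) S) (h : Skew N) :
    2 * dpf M N = (pa6 M * N).trace := by
  have d := h.diag
  have e := h.skew
  simp only [dpf, Fin.sum_univ_six, Matrix.trace, Matrix.diag_apply, Matrix.mul_apply]
  simp only [pa6, pu, pf4, Matrix.of_apply, 
    Matrix.cons_val_zero, Matrix.cons_val_one, Matrix.cons_val, Fin.reduceLT, if_true, if_false,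
    Fin.isValue, lt_self_iff_false, e 1 0, e 2 0, e 3 0, e 4 0, e 5 0, e 2 1, e 3 1, e 4 1, e 5 1, e 3 2, e 4 2,
    e 5 2, e 4 3, e 5 3, e 5 4, d]
  ring

/-- the kernel is contained in the plane of the Pfaffian adjoint -/
theorem pa6_wedge (M : Matrix (Fin 6) (Fin 6) S) (h : Skew M) (u : Fin 6 → S)
    (hu : M.mulVec u = 0) (i j k : Fin 6) :
    pa6 M i j * u k - pa6 M i k * u j + pa6 M j k * u i = 0 := by
  have d := h.diag
  have e := h.skew
  have q : ∀ l, M l 0 * u 0 + M l 1 * u 1 + M l 2 * u 2 + M l 3 * u 3 + M l 4 * u 4 +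
      M l 5 * u 5 = 0 := by
    intro l
    have := congrFun hu l
    simpa [Matrix.mulVec, dotProduct, Fin.sum_univ_six] using this
  have q0 := q 0
  have q1 := q 1
  have q2 := q 2
  have q3 := q 3
  have q4 := q 4
  have q5 := q 5
  simp only [e 1 0, e 2 0, e 3 0, e 4 0, e 5 0, e 2 1, e 3 1, e 4 1, e 5 1, e 3 2, e 4 2,
    e 5 2, e 4 3, e 5 3, e 5 4, d] at q0 q1 q2 q3 q4 q5
  have t012 : pa6 M 0 1 * u 2 - pa6 M 0 2 * u 1 + pa6 M 1 2 * u 0 = 0 := by
    simp only [pa6, pu, pf4, Matrix.of_apply, Matrix.cons_val_zero, Matrix.cons_val_one,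
      Matrix.cons_val]
    linear_combination (M 4 5 * q3 - M 3 5 * q4 + M 3 4 * q5)
  have t013 : pa6 M 0 1 * u 3 - pa6 M 0 3 * u 1 + pa6 M 1 3 * u 0 = 0 := by
    simp only [pa6, pu, pf4, Matrix.of_apply, Matrix.cons_val_zero, Matrix.cons_val_one,
      Matrix.cons_val]
    linear_combination -(M 4 5 * q2 - M 2 5 * q4 + M 2 4 * q5)
  have t014 : pa6 M 0 1 * u 4 - pa6 M 0 4 * u 1 + pa6 M 1 4 * u 0 = 0 := by
    simp only [pa6, pu, pf4, Matrix.of_apply, Matrix.cons_val_zero, Matrix.cons_val_one,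
      Matrix.cons_val]
    linear_combination (M 3 5 * q2 - M 2 5 * q3 + M 2 3 * q5)
  have t015 : pa6 M 0 1 * u 5 - pa6 M 0 5 * u 1 + pa6 M 1 5 * u 0 = 0 := by
    simp only [pa6, pu, pf4, Matrix.of_apply, Matrix.cons_val_zero, Matrix.cons_val_one,
      Matrix.cons_val]
    linear_combination -(M 3 4 * q2 - M 2 4 * q3 + M 2 3 * q4)
  have t023 : pa6 M 0 2 * u 3 - pa6 M 0 3 * u 2 + pa6 M 2 3 * u 0 = 0 := by
    simp only [pa6, pu, pf4, Matrix.of_apply, Matrix.cons_val_zero, Matrix.cons_val_one,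
      Matrix.cons_val]
    linear_combination (M 4 5 * q1 - M 1 5 * q4 + M 1 4 * q5)
  have t024 : pa6 M 0 2 * u 4 - pa6 M 0 4 * u 2 + pa6 M 2 4 * u 0 = 0 := by
    simp only [pa6, pu, pf4, Matrix.of_apply, Matrix.cons_val_zero, Matrix.cons_val_one,
      Matrix.cons_val]
    linear_combination -(M 3 5 * q1 - M 1 5 * q3 + M 1 3 * q5)
  have t025 : pa6 M 0 2 * u 5 - pa6 M 0 5 * u 2 + pa6 M 2 5 * u 0 = 0 := by
    simp only [pa6, pu, pf4, Matrix.of_apply, Matrix.cons_val_zero, Matrix.cons_val_one,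
      Matrix.cons_val]
    linear_combination (M 3 4 * q1 - M 1 4 * q3 + M 1 3 * q4)
  have t034 : pa6 M 0 3 * u 4 - pa6 M 0 4 * u 3 + pa6 M 3 4 * u 0 = 0 := by
    simp only [pa6, pu, pf4, Matrix.of_apply, Matrix.cons_val_zero, Matrix.cons_val_one,
      Matrix.cons_val]
    linear_combination (M 2 5 * q1 - M 1 5 * q2 + M 1 2 * q5)
  have t035 : pa6 M 0 3 * u 5 - pa6 M 0 5 * u 3 + pa6 M 3 5 * u 0 = 0 := by
    simp only [pa6, pu, pf4, Matrix.of_apply, Matrix.cons_val_zero, Matrix.cons_val_one,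
      Matrix.cons_val]
    linear_combination -(M 2 4 * q1 - M 1 4 * q2 + M 1 2 * q4)
  have t045 : pa6 M 0 4 * u 5 - pa6 M 0 5 * u 4 + pa6 M 4 5 * u 0 = 0 := by
    simp only [pa6, pu, pf4, Matrix.of_apply, Matrix.cons_val_zero, Matrix.cons_val_one,
      Matrix.cons_val]
    linear_combination (M 2 3 * q1 - M 1 3 * q2 + M 1 2 * q3)
  have t123 : pa6 M 1 2 * u 3 - pa6 M 1 3 * u 2 + pa6 M 2 3 * u 1 = 0 := by
    simp only [pa6, pu, pf4, Matrix.of_apply, Matrix.cons_val_zero, Matrix.cons_val_one,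
      Matrix.cons_val]
    linear_combination -(M 4 5 * q0 - M 0 5 * q4 + M 0 4 * q5)
  have t124 : pa6 M 1 2 * u 4 - pa6 M 1 4 * u 2 + pa6 M 2 4 * u 1 = 0 := by
    simp only [pa6, pu, pf4, Matrix.of_apply, Matrix.cons_val_zero, Matrix.cons_val_one,
      Matrix.cons_val]
    linear_combination (M 3 5 * q0 - M 0 5 * q3 + M 0 3 * q5)
  have t125 : pa6 M 1 2 * u 5 - pa6 M 1 5 * u 2 + pa6 M 2 5 * u 1 = 0 := by
    simp only [pa6, pu, pf4, Matrix.of_apply, Matrix.cons_val_zero, Matrix.cons_val_one,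
      Matrix.cons_val]
    linear_combination -(M 3 4 * q0 - M 0 4 * q3 + M 0 3 * q4)
  have t134 : pa6 M 1 3 * u 4 - pa6 M 1 4 * u 3 + pa6 M 3 4 * u 1 = 0 := by
    simp only [pa6, pu, pf4, Matrix.of_apply, Matrix.cons_val_zero, Matrix.cons_val_one,
      Matrix.cons_val]
    linear_combination -(M 2 5 * q0 - M 0 5 * q2 + M 0 2 * q5)
  have t135 : pa6 M 1 3 * u 5 - pa6 M 1 5 * u 3 + pa6 M 3 5 * u 1 = 0 := by
    simp only [pa6, pu, pf4, Matrix.of_apply, Matrix.cons_val_zero, Matrix.cons_val_one,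
      Matrix.cons_val]
    linear_combination (M 2 4 * q0 - M 0 4 * q2 + M 0 2 * q4)
  have t145 : pa6 M 1 4 * u 5 - pa6 M 1 5 * u 4 + pa6 M 4 5 * u 1 = 0 := by
    simp only [pa6, pu, pf4, Matrix.of_apply, Matrix.cons_val_zero, Matrix.cons_val_one,
      Matrix.cons_val]
    linear_combination -(M 2 3 * q0 - M 0 3 * q2 + M 0 2 * q3)
  have t234 : pa6 M 2 3 * u 4 - pa6 M 2 4 * u 3 + pa6 M 3 4 * u 2 = 0 := by
    simp only [pa6, pu, pf4, Matrix.of_apply, Matrix.cons_val_zero, Matrix.cons_val_one,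
      Matrix.cons_val]
    linear_combination (M 1 5 * q0 - M 0 5 * q1 + M 0 1 * q5)
  have t235 : pa6 M 2 3 * u 5 - pa6 M 2 5 * u 3 + pa6 M 3 5 * u 2 = 0 := by
    simp only [pa6, pu, pf4, Matrix.of_apply, Matrix.cons_val_zero, Matrix.cons_val_one,
      Matrix.cons_val]
    linear_combination -(M 1 4 * q0 - M 0 4 * q1 + M 0 1 * q4)
  have t245 : pa6 M 2 4 * u 5 - pa6 M 2 5 * u 4 + pa6 M 4 5 * u 2 = 0 := by
    simp only [pa6, pu, pf4, Matrix.of_apply, Matrix.cons_val_zero, Matrix.cons_val_one,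
      Matrix.cons_val]
    linear_combination (M 1 3 * q0 - M 0 3 * q1 + M 0 1 * q3)
  have t345 : pa6 M 3 4 * u 5 - pa6 M 3 5 * u 4 + pa6 M 4 5 * u 3 = 0 := by
    simp only [pa6, pu, pf4, Matrix.of_apply, Matrix.cons_val_zero, Matrix.cons_val_one,
      Matrix.cons_val]
    linear_combination -(M 1 2 * q0 - M 0 2 * q1 + M 0 1 * q2)
  have sorted : ∀ i j k : Fin 6, i < j → j < k →
      pa6 M i j * u k - pa6 M i k * u j + pa6 M j k * u i = 0 := by
    intro i j k hij hjk
    fin_cases i <;> fin_cases j <;> first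
      | (exfalso; revert hij; decide)
      | (fin_cases k <;> first
        | (exfalso; revert hjk; decide)
        | assumption)
  have s := (pa6_skew M).skew
  have z := (pa6_skew M).diag
  rcases lt_trichotomy i j with hij | hij | hij
  · rcases lt_trichotomy j k with hjk | hjk | hjk
    · exact sorted i j k hij hjk
    · subst hjk; rw [z]; ring
    · rcases lt_trichotomy i k with hik | hik | hik
      · have := sorted i k j hik hjk
        rw [s k j] at this
        linear_combination -this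
      · subst hik; rw [z, s j i]; ring
      · have := sorted k i j hik hij
        rw [s k i, s k j] at this
        linear_combination this
  · subst hij; rw [z]; ring
  · rcases lt_trichotomy i k with hik | hik | hik
    · have := sorted j i k hij hik
      rw [s j i] at this
      linear_combination -this
    · subst hik; rw [z, s j i]; ring
    · rcases lt_trichotomy j k with hjk | hjk | hjk
      · have := sorted j k i hjk hik
        rw [s j i, s k i] at this
        linear_combination this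
      · subst hjk; rw [z, s i j]; ring
      · have := sorted k j i hjk hij
        rw [s k j, s k i, s j i] at this
        linear_combination -this

end Pool.Agent.Helper79.HR
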