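import Pool.Agent.Helper79.HR.PF2

set_option autoImplicit false

namespace Pool.Agent.Helper79.HR

open Module

theorem range_perturb (f g : (Fin 6 → ℂ) →ₗ[ℂ] (Fin 6 → ℂ))
    (h : ∀ t : ℂ, finrank ℂ (LinearMap.range (f + t • g)) ≤ finrank ℂ (LinearMap.range f))
    (x : Fin 6 → ℂ) (hx : f x = 0) : g x ∈ LinearMap.range f := by
  by_contra hgx
  set r := finrank ℂ (LinearMap.range f) with hr
  obtain ⟨b, hb⟩ := exists_linearIndependent_of_le_finrank (R := ℂ) (M := LinearMap.range f)
    (n := r) le_rfl
  have hv : ∀ i, ∃ v, f v = (b i : Fin 6 → ℂ) := fun i => (b i).2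
  choose v hv using hv
  let φ : ℂ → (Fin r ⊕ Unit) → (Fin 6 → ℂ) := fun t =>
    Sum.elim (fun i => (f + t • g) (v i)) (fun _ => g x)
  have hcont : Continuous φ := by
    refine continuous_pi fun k => ?_
    rcases k with i | i
    · simp only [φ, Sum.elim_inl, LinearMap.add_apply, LinearMap.smul_apply]
      fun_prop
    · simp only [φ, Sum.elim_inr]
      fun_prop
  have h0 : LinearIndependent ℂ (φ 0) := by
    have hb' : LinearIndependent ℂ (fun i => (b i : Fin 6 → ℂ)) := 
      hb.map' (Submodule.subtype _) (Submodule.ker_subtype _)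
    have e : φ 0 = Sum.elim (fun i => (b i : Fin 6 → ℂ)) (fun _ => g x) := by
      funext k
      rcases k with i | i
      · simp [φ, hv]
      · rfl
    rw [e, linearIndependent_sum]
    refine ⟨hb', ?_, ?_⟩
    · have hne : g x ≠ 0 := fun h0 => hgx (by rw [h0]; exact Submodule.zero_mem _)
      exact LinearIndependent.of_subsingleton (i := ()) (by simpa using hne)
    · rw [Submodule.disjoint_def]
      intro w hw1 hw2
      have hw1' : w ∈ LinearMap.range f := by
        refine Submodule.span_le.mpr ?_ hw1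
        rintro _ ⟨i, rfl⟩
        exact (b i).2
      have hw2' : w ∈ Submodule.span ℂ {g x} := by
        refine Submodule.span_mono ?_ hw2
        rintro _ ⟨i, rfl⟩
        simp
      obtain ⟨a, rfl⟩ := Submodule.mem_span_singleton.mp hw2'
      by_cases ha : a = 0
      · rw [ha, zero_smul]
      · exfalso
        apply hgx
        have := Submodule.smul_mem _ a⁻¹ hw1'
        rwa [smul_smul, inv_mul_cancel₀ ha, one_smul] at this
  have hopen : IsOpen (φ ⁻¹' {w | LinearIndependent ℂ w}) :=
    isOpen_setOf_linearIndependent.preimage hcont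
  obtain ⟨ε, hε, hball⟩ := Metric.isOpen_iff.mp hopen 0 h0
  have ht : LinearIndependent ℂ (φ ((ε / 2 : ℝ) : ℂ)) := by
    apply hball
    rw [Metric.mem_ball, dist_zero_right, Complex.norm_real, Real.norm_eq_abs, abs_of_pos (by positivity)]
    linarith
  set t : ℂ := ((ε / 2 : ℝ) : ℂ) with htdef
  have ht0 : t ≠ 0 := by
    rw [htdef]
    exact_mod_cast (by positivity : (ε / 2 : ℝ) ≠ 0)
  have hmem : ∀ k, φ t k ∈ LinearMap.range (f + t • g) := by
    intro k
    rcases k with i | i
    · exact ⟨v i, rfl⟩
    · refine ⟨t⁻¹ • x, ?_⟩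
      simp only [φ, Sum.elim_inr, map_smul, LinearMap.add_apply, hx, zero_add,
        LinearMap.smul_apply, smul_smul]
      rw [inv_mul_cancel₀ ht0, one_smul]
  let ψ : (Fin r ⊕ Unit) → LinearMap.range (f + t • g) := fun k => ⟨φ t k, hmem k⟩
  have hψ : LinearIndependent ℂ ψ := by
    apply LinearIndependent.of_comp (Submodule.subtype _)
    exact ht
  have hc := hψ.fintype_card_le_finrank
  simp only [Fintype.card_sum, Fintype.card_fin, Fintype.card_unit] at hc
  have := h t
  omega

end Pool.Agent.Helper79.HR
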