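import Pool.Agent.Helper79.HR.PF3
import Pool.Agent.Helper16.CubicGen

set_option autoImplicit false

namespace Pool.Agent.Helper79.HR

open MvPolynomial Module Pool.Agent.Helper16

section defs

variable {S : Type*} [CommRing S] [Algebra ℂ S]

/-- an enumeration of the coordinates -/
def en : Fin 6 ≃ I6 := (finSumFinEquiv : Fin 3 ⊕ Fin 3 ≃ Fin (3 + 3)).symm

/-- the matrix of linear forms with coefficients `A` -/
noncomputable def linMat (A : I6 → Matrix (Fin 6) (Fin 6) ℂ) (z : I6 → S) :
    Matrix (Fin 6) (Fin 6) S :=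
  Matrix.of fun i j => ∑ m, algebraMap ℂ S (A m i j) * z m

/-- the matrix of `z ↦ M(z) u` -/
noncomputable def conMat (A : I6 → Matrix (Fin 6) (Fin 6) ℂ) (u : Fin 6 → S) :
    Matrix (Fin 6) (Fin 6) S :=
  Matrix.of fun i j => ∑ k, algebraMap ℂ S (A (en j) i k) * u k

theorem linMat_mulVec (A : I6 → Matrix (Fin 6) (Fin 6) ℂ) (z : I6 → S) (u : Fin 6 → S) :
    (linMat A z).mulVec u = (conMat A u).mulVec (fun j => z (en j)) := by
  funext i
  simp only [Matrix.mulVec, dotProduct, linMat, conMat, Matrix.of_apply, Finset.sum_mul]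
  rw [Finset.sum_comm, ← Equiv.sum_comp en]
  refine Finset.sum_congr rfl fun j _ => Finset.sum_congr rfl fun k _ => ?_
  ring

theorem linMat_skew (A : I6 → Matrix (Fin 6) (Fin 6) ℂ) (hA : ∀ m i j, A m i j = -A m j i)
    (z : I6 → S) : Skew (linMat A z) where
  skew i j := by
    simp only [linMat, Matrix.of_apply, ← Finset.sum_neg_distrib]
    refine Finset.sum_congr rfl fun m _ => ?_
    rw [hA m i j, map_neg, neg_mul]
  diag i := by
    simp only [linMat, Matrix.of_apply]
    refine Finset.sum_eq_zero fun m _ => ?_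
    have h := hA m i i
    have : A m i i = 0 := by linear_combination (1/2) * h
    rw [this, map_zero, zero_mul]

theorem linMat_add_smul (A : I6 → Matrix (Fin 6) (Fin 6) ℂ) (z w : I6 → S) (t : S) :
    linMat A (z + t • w) = linMat A z + t • linMat A w := by
  ext i j
  simp only [linMat, Matrix.of_apply, Matrix.add_apply, Matrix.smul_apply, smul_eq_mul,
    Pi.add_apply, Pi.smul_apply, Finset.mul_sum, ← Finset.sum_add_distrib]
  refine Finset.sum_congr rfl fun m _ => ?_
  ring

theorem conMat_add_smul (A : I6 → Matrix (Fin 6) (Fin 6) ℂ) (u v : Fin 6 → S) (t : S) :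
    conMat A (u + t • v) = conMat A u + t • conMat A v := by
  ext i j
  simp only [conMat, Matrix.of_apply, Matrix.add_apply, Matrix.smul_apply, smul_eq_mul,
    Pi.add_apply, Pi.smul_apply, Finset.mul_sum, ← Finset.sum_add_distrib]
  refine Finset.sum_congr rfl fun m _ => ?_
  ring

theorem conMat_smul (A : I6 → Matrix (Fin 6) (Fin 6) ℂ) (v : Fin 6 → S) (t : S) :
    conMat A (t • v) = t • conMat A v := by
  ext i j
  simp only [conMat, Matrix.of_apply, Matrix.smul_apply, smul_eq_mul,
    Pi.smul_apply, Finset.mul_sum]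
  refine Finset.sum_congr rfl fun m _ => ?_
  ring

theorem linMat_smul (A : I6 → Matrix (Fin 6) (Fin 6) ℂ) (v : I6 → S) (t : S) :
    linMat A (t • v) = t • linMat A v := by
  ext i j
  simp only [linMat, Matrix.of_apply, Matrix.smul_apply, smul_eq_mul,
    Pi.smul_apply, Finset.mul_sum]
  refine Finset.sum_congr rfl fun m _ => ?_
  ring

end defs

/-- a nonvanishing four by four Pfaffian gives rank four -/
theorem four_le_rank (M : Matrix (Fin 6) (Fin 6) ℂ) (h : Skew M) (hpa : pa6 M ≠ 0) :
    4 ≤ M.rank := by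
  have d := h.diag
  have e := h.skew
  have key : ∀ a b c f : Fin 6, pf4 M a b c f ≠ 0 → 4 ≤ M.rank := by
    intro a b c f hne
    have h1 := Matrix.rank_submatrix_le M ![a, b, c, f] ![a, b, c, f]
    have h2 : (M.submatrix ![a, b, c, f] ![a, b, c, f]).det = pf4 M a b c f ^ 2 := by
      rw [Matrix.det_succ_row_zero]
      simp only [Fin.sum_univ_succ, Matrix.det_fin_three, Matrix.submatrix_apply, pf4]
      simp
      simp only [d, e b a, e c a, e f a, e c b, e f b, e f c, Fin.succAbove]
      simp [Fin.succAbove, Fin.castSucc, Fin.castAdd, Fin.castLE, d, e b a, e c a, e f a, e c b, e f b, e f c]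
      ring
    have h3 : IsUnit (M.submatrix ![a, b, c, f] ![a, b, c, f]) := by
      rw [Matrix.isUnit_iff_isUnit_det, h2, isUnit_iff_ne_zero]
      exact pow_ne_zero _ hne
    have h4 := Matrix.rank_of_isUnit _ h3
    simp only [Fintype.card_fin] at h4
    omega
  by_contra hlt
  have hz : ∀ a b c f : Fin 6, pf4 M a b c f = 0 := by
    intro a b c f
    by_contra hne
    exact hlt (key a b c f hne)
  apply hpa
  ext i j
  fin_cases i <;> fin_cases j <;> simp [pa6, pu, hz]

end Pool.Agent.Helper79.HR
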