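import Pool.Agent.Helper79.HR.PF4

set_option autoImplicit false

namespace Pool.Agent.Helper79.HR

open MvPolynomial Module Pool.Agent.Helper16

theorem cube_add_smul (c : Cub (I6 → ℂ)) (z w : I6 → ℂ) (t : ℂ) :
    c.T (z + t • w) (z + t • w) (z + t • w) =
      c.T z z z + t * (3 * c.T z z w) + t ^ 2 * (3 * c.T z w w) + t ^ 3 * c.T w w w := by
  rw [c.cube_add]
  simp only [map_smul, LinearMap.smul_apply, smul_eq_mul]
  ring

theorem polar_eq (c : Cub (I6 → ℂ)) (A : I6 → Matrix (Fin 6) (Fin 6) ℂ) (a : ℂ)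
    (h : ∀ z, c.T z z z = a * pf6 (linMat A z)) (z w : I6 → ℂ) :
    3 * c.T z z w = a * dpf (linMat A z) (linMat A w) := by
  have key : ∀ t : ℂ, t * (3 * c.T z z w - a * dpf (linMat A z) (linMat A w)) +
      t ^ 2 * (3 * c.T z w w - a * dpf (linMat A w) (linMat A z)) +
      t ^ 3 * (c.T w w w - a * pf6 (linMat A w)) = 0 := by
    intro t
    have h1 := h (z + t • w)
    rw [cube_add_smul, linMat_add_smul, pf6_add, h z] at h1
    linear_combination h1
  have k1 := key 1
  have k2 := key (-1)
  have k3 := h w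
  rw [k3] at k1 k2
  linear_combination (1/2) * k1 - (1/2) * k2

/-- the main lemma: a point of maximal rank -/
theorem exists_good_point (c : Cub (I6 → ℂ)) (A : I6 → Matrix (Fin 6) (Fin 6) ℂ)
    (hA : ∀ m i j, A m i j = -A m j i) (a : ℂ) (h : ∀ z, c.T z z z = a * pf6 (linMat A z)) :
    ∃ (u : Fin 6 → ℂ) (z : I6 → ℂ), u ≠ 0 ∧ z ≠ 0 ∧ (linMat A z).mulVec u = 0 ∧
      c.T z z z = 0 ∧ pa6 (linMat A z) ≠ 0 ∧ 5 ≤ (conMat A u).rank := by
  classical
  -- the vector of maximal rank
  obtain ⟨u, hu0, hmax⟩ : ∃ u : Fin 6 → ℂ, u ≠ 0 ∧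
      ∀ v : Fin 6 → ℂ, (conMat A v).rank ≤ (conMat A u).rank := by
    let P : ℕ → Prop := fun n => ∃ u : Fin 6 → ℂ, u ≠ 0 ∧ n ≤ (conMat A u).rank
    have hP0 : P 0 := ⟨Pi.single 0 1, by simp, Nat.zero_le _⟩
    have h1 : P (Nat.findGreatest P 6) := Nat.findGreatest_spec (Nat.zero_le 6) hP0
    obtain ⟨u, hu0, hu⟩ := h1
    refine ⟨u, hu0, fun v => ?_⟩
    refine le_trans ?_ hu
    by_cases hv : v = 0
    · have : conMat A v = 0 := by
        rw [hv]; ext i j; simp [conMat]
      rw [this, Matrix.rank_zero]; exact Nat.zero_le _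
    · apply Nat.le_findGreatest
      · have := Matrix.rank_le_card_width (conMat A v)
        simpa using this
      · exact ⟨v, hv, le_rfl⟩
  -- the kernel
  have hdet : (conMat A u).det = 0 := by
    rw [← Matrix.exists_vecMul_eq_zero_iff]
    refine ⟨u, hu0, ?_⟩
    funext j
    rw [Matrix.vecMul, dotProduct, Pi.zero_apply]
    simp only [conMat, Matrix.of_apply, Algebra.algebraMap_self, RingHom.id_apply]
    have h1 : ∑ i, u i * ∑ k, A (en j) i k * u k = ∑ i, ∑ k, A (en j) i k * (u i * u k) := by
      refine Finset.sum_congr rfl fun i _ => ?_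
      rw [Finset.mul_sum]
      refine Finset.sum_congr rfl fun k _ => ?_
      ring
    have h2 : ∑ i, ∑ k, A (en j) i k * (u i * u k) = -∑ i, ∑ k, A (en j) i k * (u i * u k) := by
      conv_lhs => rw [Finset.sum_comm]
      rw [← Finset.sum_neg_distrib]
      refine Finset.sum_congr rfl fun i _ => ?_
      rw [← Finset.sum_neg_distrib]
      refine Finset.sum_congr rfl fun k _ => ?_
      rw [hA (en j) k i]; ring
    rw [h1]
    linear_combination (1/2) * h2
  obtain ⟨z', hz'0, hz'⟩ := Matrix.exists_mulVec_eq_zero_iff.mpr hdet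
  set z : I6 → ℂ := fun m => z' (en.symm m) with hz
  have hzz : (fun j => z (en j)) = z' := by
    funext j; simp [hz]
  have hz0 : z ≠ 0 := by
    intro h0
    apply hz'0
    rw [← hzz, h0]; rfl
  have hMu : (linMat A z).mulVec u = 0 := by
    rw [linMat_mulVec, hzz, hz']
  have hsk := linMat_skew A hA z
  have hpf : pf6 (linMat A z) = 0 := by
    have h1 := congrArg (fun N => Matrix.mulVec N u) (pa6_mul _ hsk)
    simp only [← Matrix.mulVec_mulVec, hMu, Matrix.mulVec_zero, Matrix.smul_mulVec,
      Matrix.one_mulVec] at h1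
    by_contra hne
    exact hu0 ((smul_eq_zero.mp h1.symm).resolve_left hne)
  have hT : c.T z z z = 0 := by rw [h, hpf, mul_zero]
  -- smoothness
  obtain ⟨w, hw⟩ := c.ns z hz0
  have hdpf : dpf (linMat A z) (linMat A w) ≠ 0 := by
    intro h0
    have := polar_eq c A a h z w
    rw [h0, mul_zero] at this
    exact hw (by linear_combination (1/3) * this)
  have hskw := linMat_skew A hA w
  have htr := two_dpf (linMat A z) (linMat A w) hskw
  have hpa : pa6 (linMat A z) ≠ 0 := by
    intro h0
    rw [h0, Matrix.zero_mul, Matrix.trace_zero] at htr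
    exact hdpf (by linear_combination (1/2) * htr)
  refine ⟨u, z, hu0, hz0, hMu, hT, hpa, ?_⟩
  -- the range
  have hpert : ∀ δ : Fin 6 → ℂ, (linMat A z).mulVec δ ∈
      LinearMap.range (conMat A u).mulVecLin := by
    intro δ
    have h1 := range_perturb (conMat A u).mulVecLin (conMat A δ).mulVecLin (by
      intro t
      have h2 : (conMat A u).mulVecLin + t • (conMat A δ).mulVecLin =
          (conMat A (u + t • δ)).mulVecLin := by
        rw [conMat_add_smul, Matrix.mulVecLin_add]
        congr 1
        ext x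
        simp [Matrix.smul_mulVec]
      rw [h2]
      exact hmax _) z' (by rw [Matrix.mulVecLin_apply, hz'])
    rw [Matrix.mulVecLin_apply, ← hzz, ← linMat_mulVec] at h1
    exact h1
  have hle : LinearMap.range (linMat A z).mulVecLin ≤ LinearMap.range (conMat A u).mulVecLin := by
    rintro _ ⟨δ, rfl⟩
    exact hpert δ
  have h4 := four_le_rank _ hsk hpa
  by_contra hlt
  have hrank : (conMat A u).rank ≤ (linMat A z).rank := by omega
  have heq : LinearMap.range (linMat A z).mulVecLin = LinearMap.range (conMat A u).mulVecLin :=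
    Submodule.eq_of_le_of_finrank_le hle hrank
  have hwu : (linMat A w).mulVec u ∈ LinearMap.range (linMat A z).mulVecLin := by
    rw [heq, linMat_mulVec]
    exact ⟨fun j => w (en j), Matrix.mulVecLin_apply _ _⟩
  obtain ⟨v, hv⟩ := hwu
  rw [Matrix.mulVecLin_apply] at hv
  -- the Pfaffian adjoint kills the range
  have hZ : (pa6 (linMat A z)).mulVec ((linMat A w).mulVec u) = 0 := by
    rw [← hv, Matrix.mulVec_mulVec, pa6_mul _ hsk, hpf, zero_smul, Matrix.zero_mulVec]
  have hZ' : ∀ i, ∑ j, ∑ k, pa6 (linMat A z) i j * linMat A w j k * u k = 0 := by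
    intro i
    have := congrFun hZ i
    simp only [Matrix.mulVec, dotProduct, Pi.zero_apply, Finset.mul_sum] at this
    rw [← this]
    refine Finset.sum_congr rfl fun j _ => Finset.sum_congr rfl fun k _ => ?_
    ring
  obtain ⟨i, hi⟩ := Function.ne_iff.mp hu0
  have hi : u i ≠ 0 := hi
  have htr0 : (pa6 (linMat A z) * linMat A w).trace * u i = 0 := by
    have e1 : (pa6 (linMat A z) * linMat A w).trace * u i =
        ∑ j, ∑ k, linMat A w k j * (pa6 (linMat A z) j k * u i) := by
      rw [Matrix.trace, Finset.sum_mul]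
      refine Finset.sum_congr rfl fun j _ => ?_
      rw [Matrix.diag_apply, Matrix.mul_apply, Finset.sum_mul]
      refine Finset.sum_congr rfl fun k _ => ?_
      ring
    have e2 : ∀ j k, linMat A w k j * (pa6 (linMat A z) j k * u i) =
        pa6 (linMat A z) i j * linMat A w j k * u k + pa6 (linMat A z) i k * linMat A w k j * u j := by
      intro j k
      have h1 := pa6_wedge _ hsk u hMu i j k
      have h2 := hskw.skew k j
      have h3 : pa6 (linMat A z) j k * u i = pa6 (linMat A z) i k * u j -
          pa6 (linMat A z) i j * u k := by linear_combination h1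
      rw [h3, h2]
      ring
    rw [e1]
    simp only [e2, Finset.sum_add_distrib]
    rw [hZ' i, zero_add, Finset.sum_comm, hZ' i]
  have := (mul_eq_zero.mp htr0).resolve_right hi
  rw [this] at htr
  exact hdpf (by linear_combination (1/2) * htr)

end Pool.Agent.Helper79.HR
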