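import Pool.Agent.Helper79.HR.PF5

set_option autoImplicit false

namespace Pool.Agent.Helper79.HR

open MvPolynomial Module Pool.Agent.Helper16

section bord

variable {S : Type*} [CommRing S]

/-- bordered matrix -/
def bord (N : Matrix (Fin 6) (Fin 6) S) (p q : Fin 6 → S) :
    Matrix (Fin 6 ⊕ Unit) (Fin 6 ⊕ Unit) S :=
  Matrix.fromBlocks N (Matrix.of fun i _ => p i) (Matrix.of fun _ j => q j) 0

theorem bord_mulVec (N : Matrix (Fin 6) (Fin 6) S) (p q x : Fin 6 → S) (s : S) :
    (bord N p q).mulVec (Sum.elim x fun _ => s) =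
      Sum.elim (N.mulVec x + s • p) fun _ => q ⬝ᵥ x := by
  funext i
  rcases i with i | i
  · simp [bord, Matrix.mulVec, dotProduct, Fintype.sum_sum_type]
    ring
  · simp [bord, Matrix.mulVec, dotProduct, Fintype.sum_sum_type]

theorem bord_smul_aux (N : Matrix (Fin 6) (Fin 6) S) (p q : Fin 6 → S) (t : S) :
    (bord (t • N) p q).det * t = t ^ 6 * (bord N p q).det := by
  have h1 : bord (t • N) (t • p) q =
      Matrix.diagonal (Sum.elim (fun _ => t) fun _ => 1) * bord N p q := by
    ext i j
    rcases i with i | i <;> rcases j with j | j <;> simp [bord, Matrix.diagonal_mul]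
  have h2 : bord (t • N) (t • p) q =
      bord (t • N) p q * Matrix.diagonal (Sum.elim (fun _ => 1) fun _ => t) := by
    ext i j
    rcases i with i | i <;> rcases j with j | j <;> simp [bord, Matrix.mul_diagonal]
    ring
  have h3 := congrArg Matrix.det h1
  have h4 := congrArg Matrix.det h2
  rw [h3] at h4
  simp only [Matrix.det_mul, Matrix.det_diagonal, Fintype.prod_sum_type, Sum.elim_inl,
    Sum.elim_inr, Finset.prod_const, Finset.card_univ, Fintype.card_fin, Fintype.card_unit,
    pow_one, mul_one, one_pow, one_mul] at h4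
  exact h4.symm

end bord

theorem exists_perp {K : Type*} [Field K] (q : Fin 6 → K) : ∃ x : Fin 6 → K, x ≠ 0 ∧ q ⬝ᵥ x = 0 := by
  by_cases h : q 0 = 0
  · refine ⟨Pi.single 0 1, by simp, by simp [h]⟩
  · refine ⟨Pi.single 0 (q 1) - Pi.single 1 (q 0), ?_, ?_⟩
    · intro h0
      have := congrFun h0 1
      simp at this
      exact h this
    · rw [dotProduct_sub, dotProduct_single, dotProduct_single]; ring

theorem bord_smul {K : Type*} [Field K] (N : Matrix (Fin 6) (Fin 6) K) (p q : Fin 6 → K) (t : K) :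
    (bord (t • N) p q).det = t ^ 5 * (bord N p q).det := by
  by_cases ht : t = 0
  · subst ht
    rw [zero_pow (by norm_num), zero_mul, zero_smul, ← Matrix.exists_mulVec_eq_zero_iff]
    obtain ⟨x, hx0, hx⟩ := exists_perp q
    refine ⟨Sum.elim x fun _ => 0, ?_, ?_⟩
    · intro h0
      apply hx0
      funext i
      exact congrFun h0 (.inl i)
    · rw [bord_mulVec, hx]
      funext i
      rcases i with i | i <;> simp
  · have := bord_smul_aux N p q t
    apply mul_right_cancel₀ ht
    rw [this]; ring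

/-- choice of the border -/
theorem exists_bord (N : Matrix (Fin 6) (Fin 6) ℂ) (h5 : 5 ≤ N.rank) (hdet : N.det = 0) :
    ∃ p q : Fin 6 → ℂ, (bord N p q).det ≠ 0 := by
  obtain ⟨k, hk0, hk⟩ := Matrix.exists_mulVec_eq_zero_iff.mpr hdet
  obtain ⟨j, hj⟩ := Function.ne_iff.mp hk0
  have hj : k j ≠ 0 := hj
  -- the range is not everything
  have hrange : LinearMap.range N.mulVecLin ≠ ⊤ := by
    intro htop
    have hsurj := LinearMap.range_eq_top.mp htop
    have hinj := (LinearMap.injective_iff_surjective (f := N.mulVecLin)).mpr hsurj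
    apply hk0
    apply hinj
    rw [Matrix.mulVecLin_apply, hk, map_zero]
  obtain ⟨p, hp⟩ := SetLike.exists_not_mem_of_ne_top _ hrange rfl
  refine ⟨p, Pi.single j 1, ?_⟩
  intro h0
  obtain ⟨y, hy0, hy⟩ := Matrix.exists_mulVec_eq_zero_iff.mpr h0
  have hy' : y = Sum.elim (fun i => y (.inl i)) fun _ => y (.inr ()) := by
    funext i
    rcases i with i | i <;> rfl
  rw [hy', bord_mulVec] at hy
  have h1 : N.mulVec (fun i => y (.inl i)) + y (.inr ()) • p = 0 := by
    funext i
    exact congrFun hy (.inl i)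
  have h2 : y (.inl j) = 0 := by
    have := congrFun hy (.inr ())
    simpa using this
  have h3 : y (.inr ()) = 0 := by
    by_contra hne
    apply hp
    refine ⟨-(y (.inr ()))⁻¹ • (fun i => y (.inl i)), ?_⟩
    rw [Matrix.mulVecLin_apply, Matrix.mulVec_smul]
    have : N.mulVec (fun i => y (.inl i)) = -(y (.inr ()) • p) := eq_neg_of_add_eq_zero_left h1
    rw [this, smul_neg, neg_smul, neg_neg, smul_smul, inv_mul_cancel₀ hne, one_smul]
  rw [h3, zero_smul, add_zero] at h1
  -- the kernel is a line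
  have hker : finrank ℂ (LinearMap.ker N.mulVecLin) ≤ 1 := by
    have := LinearMap.finrank_range_add_finrank_ker N.mulVecLin
    rw [← Matrix.rank] at this
    simp at this
    omega
  have hspan : ∃ a : ℂ, (fun i => y (.inl i)) = a • k := by
    have hkm : k ∈ LinearMap.ker N.mulVecLin := by rw [LinearMap.mem_ker, Matrix.mulVecLin_apply, hk]
    have hym : (fun i => y (.inl i)) ∈ LinearMap.ker N.mulVecLin := by
      rw [LinearMap.mem_ker, Matrix.mulVecLin_apply, h1]
    have h4 := (finrank_le_one_iff.mp hker)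
    obtain ⟨v, hv⟩ := h4
    obtain ⟨a, ha⟩ := hv ⟨k, hkm⟩
    obtain ⟨b, hb⟩ := hv ⟨_, hym⟩
    have ha' : a • (v : Fin 6 → ℂ) = k := congrArg Subtype.val ha
    have hb' : b • (v : Fin 6 → ℂ) = fun i => y (.inl i) := congrArg Subtype.val hb
    have ha0 : a ≠ 0 := by
      rintro rfl; apply hk0; rw [← ha', zero_smul]
    refine ⟨b * a⁻¹, ?_⟩
    rw [← hb', ← ha', smul_smul, mul_assoc, inv_mul_cancel₀ ha0, mul_one]
  obtain ⟨a, ha⟩ := hspan
  have h5 : a = 0 := by
    have := congrFun ha j
    simp only [Pi.smul_apply, smul_eq_mul, h2] at this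
    exact (mul_eq_zero.mp this.symm).resolve_right hj
  apply hy0
  rw [hy', ha, h5, h3]
  funext i
  rcases i with i | i <;> simp

end Pool.Agent.Helper79.HR
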