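import Pool.Agent.Helper79.HR.PF6

set_option autoImplicit false

namespace Pool.Agent.Helper79.HR

open MvPolynomial Module Pool.Agent.Helper16

section maps

variable {S S' : Type*} [CommRing S] [CommRing S'] [Algebra ℂ S] [Algebra ℂ S']

theorem map_pf4 (φ : S →ₐ[ℂ] S') (M : Matrix (Fin 6) (Fin 6) S) (a b c d : Fin 6) :
    φ (pf4 M a b c d) = pf4 (M.map φ) a b c d := by
  simp [pf4]

theorem map_pf6 (φ : S →ₐ[ℂ] S') (M : Matrix (Fin 6) (Fin 6) S) :
    φ (pf6 M) = pf6 (M.map φ) := by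
  simp [pf6, map_pf4]

theorem map_pa6 (φ : S →ₐ[ℂ] S') (M : Matrix (Fin 6) (Fin 6) S) :
    (pa6 M).map φ = pa6 (M.map φ) := by
  ext i j
  fin_cases i <;> fin_cases j <;> simp [pa6, pu, map_pf4]

theorem map_linMat (φ : S →ₐ[ℂ] S') (A : I6 → Matrix (Fin 6) (Fin 6) ℂ) (z : I6 → S) :
    (linMat A z).map φ = linMat A (fun m => φ (z m)) := by
  ext i j
  simp [linMat]

theorem map_conMat (φ : S →ₐ[ℂ] S') (A : I6 → Matrix (Fin 6) (Fin 6) ℂ) (u : Fin 6 → S) :
    (conMat A u).map φ = conMat A (fun m => φ (u m)) := by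
  ext i j
  simp [conMat]

/-- the kernel vector -/
noncomputable def kv (A : I6 → Matrix (Fin 6) (Fin 6) ℂ) (κ : Fin 6 → ℂ) (z : I6 → S) :
    Fin 6 → S :=
  (pa6 (linMat A z)).mulVec fun i => algebraMap ℂ S (κ i)

theorem map_kv (φ : S →ₐ[ℂ] S') (A : I6 → Matrix (Fin 6) (Fin 6) ℂ) (κ : Fin 6 → ℂ) (z : I6 → S)
    (i : Fin 6) : φ (kv A κ z i) = kv A κ (fun m => φ (z m)) i := by
  have h := map_pa6 φ (linMat A z)
  rw [map_linMat] at h
  simp only [kv, ← h, Matrix.mulVec, dotProduct, map_sum, map_mul, Matrix.map_apply,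
    AlgHom.commutes]

/-- the nonvanishing function -/
noncomputable def gf (A : I6 → Matrix (Fin 6) (Fin 6) ℂ) (κ p q : Fin 6 → ℂ) (z : I6 → S) : S :=
  (bord (conMat A (kv A κ z)) (fun i => algebraMap ℂ S (p i)) fun i => algebraMap ℂ S (q i)).det

theorem map_gf (φ : S →ₐ[ℂ] S') (A : I6 → Matrix (Fin 6) (Fin 6) ℂ) (κ p q : Fin 6 → ℂ)
    (z : I6 → S) : φ (gf A κ p q z) = gf A κ p q (fun m => φ (z m)) := by
  rw [gf, gf, AlgHom.map_det]
  congr 1
  rw [AlgHom.mapMatrix_apply]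
  have h := map_conMat φ A (kv A κ z)
  simp only [map_kv] at h
  ext i j
  rcases i with i | i <;> rcases j with j | j
  · simp only [bord, Matrix.map_apply, Matrix.fromBlocks_apply₁₁]
    exact congrFun (congrFun h i) j
  · simp [bord]
  · simp [bord]
  · simp [bord]

end maps

theorem mul_pa6 {S : Type*} [CommRing S] (M : Matrix (Fin 6) (Fin 6) S) (h : Skew M) :
    M * pa6 M = pf6 M • 1 := by
  have h1 := congrArg Matrix.transpose (pa6_mul M h)
  have e1 : M.transpose = -M := by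
    ext i j; rw [Matrix.transpose_apply, Matrix.neg_apply, h.skew]
  have e2 : (pa6 M).transpose = -pa6 M := by
    ext i j; rw [Matrix.transpose_apply, Matrix.neg_apply, (pa6_skew M).skew]
  rw [Matrix.transpose_mul, e1, e2, neg_mul_neg, Matrix.transpose_smul,
    Matrix.transpose_one] at h1
  exact h1

theorem pf4_smul {S : Type*} [CommRing S] (M : Matrix (Fin 6) (Fin 6) S) (t : S)
    (a b c d : Fin 6) : pf4 (t • M) a b c d = t ^ 2 * pf4 M a b c d := by
  simp only [pf4, Matrix.smul_apply, smul_eq_mul]; ring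

theorem pa6_smul {S : Type*} [CommRing S] (M : Matrix (Fin 6) (Fin 6) S) (t : S) :
    pa6 (t • M) = t ^ 2 • pa6 M := by
  ext i j
  fin_cases i <;> fin_cases j <;> simp [pa6, pu, pf4_smul]

theorem kv_smul {S : Type*} [CommRing S] [Algebra ℂ S] (A : I6 → Matrix (Fin 6) (Fin 6) ℂ)
    (κ : Fin 6 → ℂ) (z : I6 → S) (t : S) : kv A κ (t • z) = t ^ 2 • kv A κ z := by
  rw [kv, kv, linMat_smul, pa6_smul, Matrix.smul_mulVec]

theorem gf_smul (A : I6 → Matrix (Fin 6) (Fin 6) ℂ) (κ p q : Fin 6 → ℂ) (z : I6 → ℂ) (t : ℂ) :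
    gf A κ p q (t • z) = t ^ 10 * gf A κ p q z := by
  rw [gf, gf, kv_smul, conMat_smul, bord_smul]; ring

end Pool.Agent.Helper79.HR
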