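import Pool.Agent.Helper79.HR.PF7

set_option autoImplicit false

namespace Pool.Agent.Helper79.HR

open MvPolynomial Module Pool.Agent.Helper16

/-- a family vector and a border for which the function `gf` does not vanish on the cubic -/
theorem exists_gf (c : Cub (I6 → ℂ)) (A : I6 → Matrix (Fin 6) (Fin 6) ℂ)
    (hA : ∀ m i j, A m i j = -A m j i) (a : ℂ) (h : ∀ z, c.T z z z = a * pf6 (linMat A z)) :
    ∃ (κ p q : Fin 6 → ℂ) (z : I6 → ℂ), κ ≠ 0 ∧ z ≠ 0 ∧ c.T z z z = 0 ∧ gf A κ p q z ≠ 0 := by
  obtain ⟨u, z, hu0, hz0, hMu, hT, hpa, h5⟩ := exists_good_point c A hA a h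
  have hsk := linMat_skew A hA z
  have hdet : (conMat A u).det = 0 := by
    rw [← Matrix.exists_mulVec_eq_zero_iff]
    refine ⟨fun j => z (en j), ?_, ?_⟩
    · intro h0
      apply hz0
      funext m
      have := congrFun h0 (en.symm m)
      simpa using this
    · rw [← linMat_mulVec, hMu]
  obtain ⟨p, q, hpq⟩ := exists_bord _ h5 hdet
  obtain ⟨j, k, hjk⟩ : ∃ j k, pa6 (linMat A z) j k ≠ 0 := by
    by_contra hcon
    push Not at hcon
    exact hpa (by ext i j; exact hcon i j)
  set κ : Fin 6 → ℂ := Pi.single j (u k) - Pi.single k (u j) with hκ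
  have hkv : kv A κ z = (-(pa6 (linMat A z) j k)) • u := by
    funext l
    have h1 := pa6_wedge _ hsk u hMu l j k
    simp only [kv, Algebra.algebraMap_self, RingHom.id_apply]
    have h2 : (fun i => κ i) = κ := rfl
    rw [h2, hκ, Matrix.mulVec_sub, Pi.sub_apply, Matrix.mulVec_single, Matrix.mulVec_single]
    simp only [Pi.smul_apply, Matrix.col_apply, MulOpposite.smul_eq_mul_unop,
      MulOpposite.unop_op, smul_eq_mul, neg_mul]
    linear_combination h1
  have hκ0 : κ ≠ 0 := by
    intro h0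
    have : kv A κ z = 0 := by
      rw [h0]
      funext i
      simp [kv, Matrix.mulVec, dotProduct]
    rw [this] at hkv
    exact (smul_ne_zero (neg_ne_zero.mpr hjk) hu0) hkv.symm
  refine ⟨κ, p, q, z, hκ0, hz0, hT, ?_⟩
  rw [gf, hkv, conMat_smul, bord_smul]
  exact mul_ne_zero (pow_ne_zero _ (neg_ne_zero.mpr hjk)) hpq

theorem isHomogeneous_of_eval' {p : MvPolynomial I6 ℂ} {d : ℕ}
    (h : ∀ (a : ℂ) (z : I6 → ℂ), eval (a • z) p = a ^ d * eval z p) : p.IsHomogeneous d := by
  rw [← IsHomogeneous.rename_isHomogeneous_iff en.symm.injective]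
  apply isHomogeneous_of_eval
  intro a z
  rw [eval_rename, eval_rename]
  exact h a (z ∘ en.symm)

theorem exists_cover (i0 j0 : Fin 6) (h : i0 ≠ j0) :
    ∃ g : Fin 4 → Fin 6, ∀ i, i ≠ i0 → i ≠ j0 → ∃ m, g m = i := by
  have hc : ((Finset.univ.erase i0).erase j0).card = 4 := by
    rw [Finset.card_erase_of_mem, Finset.card_erase_of_mem (Finset.mem_univ _)]
    · simp
    · rw [Finset.mem_erase]; exact ⟨h.symm, Finset.mem_univ _⟩
  let e := Finset.equivFinOfCardEq hc
  refine ⟨fun m => (e.symm m : Fin 6), fun i h1 h2 => ?_⟩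
  refine ⟨e ⟨i, ?_⟩, by simp⟩
  rw [Finset.mem_erase, Finset.mem_erase]
  exact ⟨h2, h1, Finset.mem_univ _⟩

/-- a smooth Pfaffian cubic fourfold is rational -/
theorem rat4_of_pfaffian (c : Cub (I6 → ℂ)) (A : I6 → Matrix (Fin 6) (Fin 6) ℂ)
    (hA : ∀ m i j, A m i j = -A m j i) (a : ℂ) (ha : a ≠ 0)
    (h : ∀ z, c.T z z z = a * pf6 (linMat A z)) : c.Rat4 := by
  classical
  obtain ⟨κ, p, q, z, hκ0, hz0, hT, hg⟩ := exists_gf c A hA a h
  intro K _ _ x hx
  obtain ⟨j0, hj0⟩ := Function.ne_iff.mp hκ0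
  have hj0 : κ j0 ≠ 0 := hj0
  -- the Pfaffian vanishes at the generic point
  have hsk := linMat_skew A hA x
  have hpf : pf6 (linMat A x) = 0 := by
    have h1 : c.ext (MvPolynomial I6 ℂ) X X X - C a * pf6 (linMat A (X : I6 → MvPolynomial I6 ℂ))
        = 0 := by
      apply MvPolynomial.funext
      intro y
      rw [map_zero, ← aeval_eq_eval, map_sub, map_mul, Cub.map_ext, map_pf6, map_linMat]
      simp only [aeval_X, aeval_C, Algebra.algebraMap_self, RingHom.id_apply, Cub.ext_complex, h]
      ring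
    have h2 := congrArg (aeval x) h1
    rw [map_zero, map_sub, map_mul, Cub.map_ext, map_pf6, map_linMat] at h2
    simp only [aeval_X, aeval_C] at h2
    have h3 : c.ext K x x x = 0 := hx.zero
    have h4 : c.ext K (fun i => x i) (fun i => x i) (fun i => x i) = 0 := h3
    rw [h4, zero_sub, neg_eq_zero] at h2
    exact (mul_eq_zero.mp h2).resolve_left fun h0 => ha ((map_eq_zero _).mp h0)
  -- the kernel vector
  set u := kv A κ x with hu
  have hMu : (linMat A x).mulVec u = 0 := by
    rw [hu, kv, Matrix.mulVec_mulVec, mul_pa6 _ hsk, hpf, zero_smul, Matrix.zero_mulVec]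
  -- nonvanishing
  have hgf : gf A κ p q x ≠ 0 := by
    intro h0
    have hhom : (gf A κ p q (X : I6 → MvPolynomial I6 ℂ)).IsHomogeneous 10 :=
      isHomogeneous_of_eval' fun a z => by
        rw [← aeval_eq_eval, ← aeval_eq_eval, map_gf, map_gf]
        simp only [aeval_X]
        exact gf_smul A κ p q z a
    have h1 : aeval x (gf A κ p q (X : I6 → MvPolynomial I6 ℂ)) = 0 := by
      rw [map_gf]
      simpa only [aeval_X] using h0
    have h2 := hx.gen _ 10 hhom h1 z hT
    rw [← aeval_eq_eval, map_gf] at h2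
    simp only [aeval_X] at h2
    exact hg h2
  have hu0 : u ≠ 0 := by
    intro h0
    apply hgf
    rw [gf, ← hu, h0]
    have : conMat A (0 : Fin 6 → K) = (0 : K) • conMat A (0 : Fin 6 → K) := by
      rw [← conMat_smul, smul_zero]
    rw [this, bord_smul]; ring
  -- orthogonality
  have hku : ∑ i, algebraMap ℂ K (κ i) * u i = 0 := by
    have e : ∑ i, algebraMap ℂ K (κ i) * u i = ∑ i, ∑ j, pa6 (linMat A x) i j *
        (algebraMap ℂ K (κ i) * algebraMap ℂ K (κ j)) := by
      refine Finset.sum_congr rfl fun i _ => ?_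
      simp only [hu, kv, Matrix.mulVec, dotProduct]
      rw [Finset.mul_sum]
      refine Finset.sum_congr rfl fun j _ => ?_
      ring
    have e2 : ∑ i, ∑ j, pa6 (linMat A x) i j * (algebraMap ℂ K (κ i) * algebraMap ℂ K (κ j)) =
        - ∑ i, ∑ j, pa6 (linMat A x) i j * (algebraMap ℂ K (κ i) * algebraMap ℂ K (κ j)) := by
      conv_lhs => rw [Finset.sum_comm]
      rw [← Finset.sum_neg_distrib]
      refine Finset.sum_congr rfl fun i _ => ?_
      rw [← Finset.sum_neg_distrib]
      refine Finset.sum_congr rfl fun j _ => ?_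
      rw [(pa6_skew _).skew j i]; ring
    have h2 : (2 : K) ≠ 0 := by
      have : (2 : K) = algebraMap ℂ K 2 := (map_ofNat (algebraMap ℂ K) 2).symm
      rw [this, map_ne_zero]; norm_num
    rw [e]
    have h3 : (2 : K) * ∑ i, ∑ j, pa6 (linMat A x) i j *
        (algebraMap ℂ K (κ i) * algebraMap ℂ K (κ j)) = 0 := by linear_combination e2
    exact (mul_eq_zero.mp h3).resolve_left h2
  have hκK : algebraMap ℂ K (κ j0) ≠ 0 := by rw [map_ne_zero]; exact hj0
  -- an index with nonzero entry
  obtain ⟨i0, hi0, hui⟩ : ∃ i0, i0 ≠ j0 ∧ u i0 ≠ 0 := by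
    by_contra hcon
    push Not at hcon
    apply hu0
    funext i
    by_cases hi : i = j0
    · subst hi
      rw [Finset.sum_eq_single i] at hku
      · exact (mul_eq_zero.mp hku).resolve_left hκK
      · intro b _ hb; rw [hcon b hb, mul_zero]
      · simp
    · exact hcon i hi
  obtain ⟨g, hgc⟩ := exists_cover i0 j0 hi0
  set r : Fin 4 → K := fun m => u (g m) * (u i0)⁻¹ with hr
  set L := IntermediateField.adjoin ℂ (Set.range r) with hL
  have hv : ∀ i, u i * (u i0)⁻¹ ∈ L := by
    have h1 : ∀ i, i ≠ j0 → u i * (u i0)⁻¹ ∈ L := by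
      intro i hi
      by_cases hii : i = i0
      · subst hii; rw [mul_inv_cancel₀ hui]; exact L.one_mem
      · obtain ⟨m, hm⟩ := hgc i hii hi
        rw [← hm]
        exact IntermediateField.subset_adjoin _ _ ⟨m, rfl⟩
    intro i
    by_cases hi : i = j0
    · subst hi
      have h2 : u i * (u i0)⁻¹ = -(algebraMap ℂ K (κ i))⁻¹ *
          ∑ l ∈ Finset.univ.erase i, algebraMap ℂ K (κ l) * (u l * (u i0)⁻¹) := by
        have h3 : algebraMap ℂ K (κ i) * u i + ∑ l ∈ Finset.univ.erase i,
            algebraMap ℂ K (κ l) * u l = 0 :=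
          (Finset.add_sum_erase Finset.univ (fun l => algebraMap ℂ K (κ l) * u l)
            (Finset.mem_univ i)).trans hku
        have h4 : ∑ l ∈ Finset.univ.erase i, algebraMap ℂ K (κ l) * (u l * (u i0)⁻¹) =
            (∑ l ∈ Finset.univ.erase i, algebraMap ℂ K (κ l) * u l) * (u i0)⁻¹ := by
          rw [Finset.sum_mul]
          refine Finset.sum_congr rfl fun l _ => ?_
          ring
        rw [h4, eq_neg_of_add_eq_zero_right h3]
        field_simp
      rw [h2]
      refine L.mul_mem (L.neg_mem (L.inv_mem (L.algebraMap_mem _))) (L.sum_mem fun l hl => ?_)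
      exact L.mul_mem (L.algebraMap_mem _) (h1 l (Finset.ne_of_mem_erase hl))
    · exact h1 i hi
  -- the bordered matrix over the small field
  let v' : Fin 6 → L := fun i => ⟨u i * (u i0)⁻¹, hv i⟩
  let RL : Matrix (Fin 6 ⊕ Unit) (Fin 6 ⊕ Unit) L :=
    bord (conMat A v') (fun i => algebraMap ℂ L (p i)) fun i => algebraMap ℂ L (q i)
  have hvK : (fun i => ((v' i : L) : K)) = (u i0)⁻¹ • u := by
    funext i
    simp only [v', Pi.smul_apply, smul_eq_mul]; ring
  have hRK : RL.map (algebraMap L K) = bord (conMat A ((u i0)⁻¹ • u))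
      (fun i => algebraMap ℂ K (p i)) fun i => algebraMap ℂ K (q i) := by
    ext i j
    rcases i with i | i <;> rcases j with j | j
    · have h1 : (algebraMap L K) (conMat A v' i j) = conMat A (fun i => ((v' i : L) : K)) i j := by
        simp only [conMat, Matrix.of_apply, map_sum, map_mul]
        rfl
      simp only [RL, bord, Matrix.map_apply, Matrix.fromBlocks_apply₁₁]
      rw [h1, hvK]
    · rfl
    · rfl
    · simp [RL, bord]
  have hdetK : (RL.map (algebraMap L K)).det ≠ 0 := by
    rw [hRK, conMat_smul, bord_smul]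
    refine mul_ne_zero (pow_ne_zero _ (inv_ne_zero hui)) ?_
    have : gf A κ p q x = (bord (conMat A u) (fun i => algebraMap ℂ K (p i))
        fun i => algebraMap ℂ K (q i)).det := rfl
    rw [← this]; exact hgf
  have hdetL : RL.det ≠ 0 := by
    intro h0
    apply hdetK
    have := RingHom.map_det (algebraMap L K) RL
    rw [h0, map_zero] at this
    exact this.symm
  -- solve the linear system
  set x' : Fin 6 → K := fun j => x (en j) with hx'
  have hN : (conMat A ((u i0)⁻¹ • u)).mulVec x' = 0 := by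
    rw [conMat_smul, Matrix.smul_mulVec, hx', ← linMat_mulVec, hMu, smul_zero]
  set s : K := (fun i => algebraMap ℂ K (q i)) ⬝ᵥ x' with hs
  have hsys : (RL.map (algebraMap L K)).mulVec (Sum.elim x' fun _ => 0) =
      Sum.elim (0 : Fin 6 → K) fun _ => s := by
    rw [hRK, bord_mulVec, hN, zero_smul, add_zero]
  have hinv : (RL⁻¹.map (algebraMap L K)) * (RL.map (algebraMap L K)) = 1 := by
    rw [← Matrix.map_mul, Matrix.nonsing_inv_mul _ (isUnit_iff_ne_zero.mpr hdetL)]
    exact Matrix.map_one _ (map_zero _) (map_one _)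
  have hsol : ∀ j, x' j = s * algebraMap L K (RL⁻¹ (.inl j) (.inr ())) := by
    intro j
    have h1 := congrArg (fun w => (RL⁻¹.map (algebraMap L K)).mulVec w (.inl j)) hsys
    simp only [Matrix.mulVec_mulVec, hinv, Matrix.one_mulVec, Sum.elim_inl] at h1
    rw [h1]
    simp only [Matrix.mulVec, dotProduct, Fintype.sum_sum_type, Sum.elim_inl, Pi.zero_apply,
      mul_zero, Finset.sum_const_zero, zero_add, Sum.elim_inr, Matrix.map_apply,
      Finset.univ_unique, Finset.sum_singleton]
    rw [mul_comm]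
  have hs0 : s ≠ 0 := by
    intro h0
    have hxz : ∀ m, x m = 0 := by
      intro m
      have := hsol (en.symm m)
      rw [h0, zero_mul] at this
      simpa [hx'] using this
    apply hz0
    funext m
    have h1 : aeval x (X m : MvPolynomial I6 ℂ) = 0 := by rw [aeval_X, hxz]
    have := hx.gen (X m) 1 (isHomogeneous_X ℂ m) h1 z hT
    simpa using this
  refine ⟨r, s⁻¹, inv_ne_zero hs0, fun m => ?_⟩
  have h1 := hsol (en.symm m)
  have h2 : x' (en.symm m) = x m := by simp [hx']
  rw [h2] at h1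
  rw [h1, ← mul_assoc, inv_mul_cancel₀ hs0, one_mul]
  exact (RL⁻¹ (.inl (en.symm m)) (.inr ())).2

end Pool.Agent.Helper79.HR
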