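import Pool.Agent.Helper79.HR.PF8
import Pool.Agent.Helper29.TR.Defs

set_option autoImplicit false

namespace Pool.Agent.Helper79.HR

open MvPolynomial Module Pool.Agent.Helper16

/-- a Pfaffian presentation gives rationality -/
theorem rat4_of_PfD {c : Cub (I6 → ℂ)} (d : Helper29.TR.PfD c) : c.Rat4 := by
  refine rat4_of_pfaffian c (fun m => d.M (Pi.single m 1))
    (fun m i j => (d.alt _).2 j i) d.κ⁻¹ (inv_ne_zero d.hκ) fun z => ?_
  have h1 : linMat (fun m => d.M (Pi.single m 1)) z = d.M z := by
    ext i j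
    have h2 : d.M z = ∑ m, z m • d.M (Pi.single m 1) := by
      conv_lhs => rw [Cub.pi_sum z]
      rw [map_sum]
      refine Finset.sum_congr rfl fun m _ => ?_
      rw [map_smul]
    rw [h2, Matrix.sum_apply]
    simp only [linMat, Matrix.of_apply, Algebra.algebraMap_self, RingHom.id_apply,
      Matrix.smul_apply, smul_eq_mul]
    refine Finset.sum_congr rfl fun m _ => ?_
    ring
  rw [h1]
  have h3 : pf6 (d.M z) = Helper29.TR.pf6 (d.M z) := rfl
  rw [h3, d.pf, ← mul_assoc, inv_mul_cancel₀ d.hκ, one_mul]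

end Pool.Agent.Helper79.HR
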